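import Pool.Agent.L7h78.VC.Tg
import Pool.Agent.R932.SQ.Main
import Pool.Agent.N171.TG.Cli

/-!
# Vanishing cycles at one prime number and semisimplicity at every prime number
-/

set_option autoImplicit false
set_option linter.unusedSectionVars false

open Matrix Polynomial Filter Topology NumberField IsDedekindDomain Module
open Pool.Agent.Y142.ZO Pool.Agent.Y142.ZI Pool.Agent.Y142.ZS
open Pool.Agent.R932.SQ Pool.Agent.N171.TG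

namespace Pool.Agent.L7h78.VC

/-- **the alternating case**: an element of the Lie algebra without isotropic relation -/
theorem noRel_of_van {ℓ : ℕ} [hℓ : Fact ℓ.Prime] {N : ℕ} {G : Type} [Group G]
    {ρ : G →* Matrix (Fin N) (Fin N) ℚ_[ℓ]}
    {J : Matrix (Fin N) (Fin N) ℚ_[ℓ]} (hJ : Jᵀ = -J) (hd : J.det ≠ 0)
    (hspan : Submodule.span ℚ_[ℓ] {δ | Van ρ J δ} = ⊤) :
    ∃ X, IsTangent ℓ ρ X ∧ Xᵀ * J + J * X = 0 ∧ NoRel X.charpoly 0 := by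
  have hlie : ∀ X ∈ Y708.ZO.tan ρ, ∀ Y ∈ Y708.ZO.tan ρ, X * Y - Y * X ∈ Y708.ZO.tan ρ :=
    fun X hX Y hY => Y708.ZO.tangent_lie ρ hX hY
  have hA : Submodule.span ℚ_[ℓ] {u : Fin N → ℚ_[ℓ] | E J u u ∈ Y708.ZO.tan ρ} = ⊤ := by
    rw [eq_top_iff, ← hspan]
    exact Submodule.span_mono fun δ hδ => tangent_of_van hJ hδ
  obtain ⟨n, e, f, hF, hs⟩ := exists_fam hJ (Y708.ZO.tan ρ) hlie hd hA
  obtain ⟨a, ha0, ha⟩ := exists_scales (ℓ := ℓ) (fun i => -(bt J (e i) (f i)) ^ 2)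
    (fun i => neg_ne_zero.2 (pow_ne_zero 2 (hF.ne i)))
  obtain ⟨h1, h2, h3⟩ := exists_elt hJ (Y708.ZO.tan ρ) hF hs a
  refine ⟨_, h1, h2, ?_⟩
  have hno := noRel_prod (ℓ := ℓ) (r := 0) (by norm_num)
    (fun i : Fin n => -(bt J (e i) (f i)) ^ 2 * a i ^ 2)
    (fun i => mul_ne_zero (neg_ne_zero.2 (pow_ne_zero 2 (hF.ne i))) (pow_ne_zero 2 (ha0 i))) ha
  rw [pow_zero, mul_one] at hno
  have hprod : ∏ i, (!![0, -(a i * bt J (e i) (f i)); a i * bt J (e i) (f i), 0] :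
      Matrix (Fin 2) (Fin 2) ℚ_[ℓ]).charpoly =
      ∏ i : Fin n, ((X : ℚ_[ℓ][X]) ^ 2 - C (-(bt J (e i) (f i)) ^ 2 * a i ^ 2)) := by
    refine Finset.prod_congr rfl fun i _ => ?_
    rw [Matrix.charpoly_fin_two, Matrix.trace_fin_two, Matrix.det_fin_two]
    simp only [Matrix.of_apply, Matrix.cons_val', Matrix.cons_val_zero, Matrix.cons_val_one,
      Matrix.cons_val_fin_one, add_zero, map_zero, zero_mul, sub_zero, mul_zero, zero_sub]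
    rw [sub_eq_add_neg, ← C_neg]
    congr 2
    ring
  rw [h3, charpoly_blockDiagonal, hprod]
  exact hno

/-- the linear maps of a matrix representation -/
noncomputable def endRep {F : Type} [Field F] {n : ℕ} {Γ : Type} [Group Γ]
    (ρ : Γ →* Matrix (Fin n) (Fin n) F) : Γ →* Module.End F (Fin n → F) :=
  ((Matrix.toLinAlgEquiv' (R := F) (n := Fin n)).toAlgHom.toRingHom.toMonoidHom).comp ρ

theorem endRep_apply {F : Type} [Field F] {n : ℕ} {Γ : Type} [Group Γ]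
    (ρ : Γ →* Matrix (Fin n) (Fin n) F) (g : Γ) (x : Fin n → F) : endRep ρ g x = ρ g *ᵥ x := rfl

/-- **semisimplicity at every prime number from the vanishing cycles at one prime number** -/
theorem ss_of_van {K : Type} [Field K] [NumberField K] (hK : finrank ℚ K = 1)
    {Γ : Type} [Group Γ] (θ : GK K →* Γ) {N w : ℕ} (hw : 0 < w)
    {S : Set (HeightOneSpectrum (𝓞 K))} (hS : S.Finite) (P : HeightOneSpectrum (𝓞 K) → ℤ[X])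
    (hP : ∀ v ∉ S, (P v).Monic ∧
      ∀ z : ℂ, aeval z (P v) = 0 → ‖z‖ ^ 2 = (Ideal.absNorm v.asIdeal : ℝ) ^ w)
    (ρ : ∀ (ℓ : ℕ) [Fact ℓ.Prime], Γ →* Matrix (Fin N) (Fin N) ℚ_[ℓ])
    (hρ : ∀ (ℓ : ℕ) [Fact ℓ.Prime], Continuous ((ρ ℓ).comp θ))
    (J : ∀ (ℓ : ℕ) [Fact ℓ.Prime], Matrix (Fin N) (Fin N) ℚ_[ℓ])
    (hJ : ∀ (ℓ : ℕ) [Fact ℓ.Prime], (J ℓ)ᵀ = J ℓ ∨ (J ℓ)ᵀ = -J ℓ)
    (hdet : ∀ (ℓ : ℕ) [Fact ℓ.Prime], (J ℓ).det ≠ 0)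
    (χ : ∀ (ℓ : ℕ) [Fact ℓ.Prime], Γ → ℚ_[ℓ])
    (hχ : ∀ (ℓ : ℕ) [Fact ℓ.Prime] (g : Γ), (ρ ℓ g)ᵀ * J ℓ * ρ ℓ g = χ ℓ g • J ℓ)
    (hfrob : ∀ (ℓ : ℕ) [Fact ℓ.Prime], ∀ v ∉ S, (ℓ : 𝓞 K) ∉ v.asIdeal → ∀ σ : GK K,
      IsFrobenius v σ → (ρ ℓ (θ σ⁻¹)).charpoly = (P v).map (algebraMap ℤ ℚ_[ℓ]) ∧
      χ ℓ (θ σ⁻¹) = (Ideal.absNorm v.asIdeal : ℚ_[ℓ]) ^ w)
    (ℓ₀ : ℕ) [hℓ₀ : Fact ℓ₀.Prime]
    (hvan : ((J ℓ₀)ᵀ = -J ℓ₀ ∧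
        Submodule.span ℚ_[ℓ₀] {δ | Van ((ρ ℓ₀).comp θ) (J ℓ₀) δ} = ⊤) ∨
      ((J ℓ₀)ᵀ = J ℓ₀ ∧ ∃ δ, Van ((ρ ℓ₀).comp θ) (J ℓ₀) δ ∧ ∀ Δ : Subgroup (GK K),
        IsOpen (Δ : Set (GK K)) →
          Submodule.span ℚ_[ℓ₀] {x | ∃ σ ∈ Δ, x = ((ρ ℓ₀).comp θ) σ *ᵥ δ} = ⊤))
    (ℓ : ℕ) [hℓ : Fact ℓ.Prime] (U : Subgroup Γ) (hU : U.FiniteIndex) :
    SSu (endRep (ρ ℓ)) U := by
  refine SSu.finite_index (fun M hM => ?_) U hU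
  rcases hvan with ⟨hJ0, hspan⟩ | ⟨hJ0, δ, hδ, hspan⟩
  · obtain ⟨X, hX, hXJ, hno⟩ := noRel_of_van hJ0 (hdet ℓ₀) hspan
    obtain ⟨h1, h2⟩ := semisimple_all hK θ hw hS P hP ρ hρ J hJ hdet χ hχ hfrob ℓ₀ hX (c := 0)
      (by rw [zero_smul]; exact hXJ) hno ℓ M (fun g x hx => hM g (Subgroup.mem_top g) x hx)
    exact ⟨_, fun g _ x hx => h2 g x hx, h1⟩
  · obtain ⟨h1, h2⟩ := semisimple_full hK θ hw hS P hP ρ hρ J hJ hdet χ hχ hfrob ℓ₀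
      (fun X hX => full_of_van (hρ ℓ₀) hJ0 (hdet ℓ₀) (fun g => ⟨_, hχ ℓ₀ (θ g)⟩) hδ hspan hX)
      ℓ M (fun g x hx => hM g (Subgroup.mem_top g) x hx)
    exact ⟨_, fun g _ x hx => h2 g x hx, h1⟩

end Pool.Agent.L7h78.VC
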