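import Pool.Agent.L7h78.VC.La

/-!
# Vanishing cycles: the characteristic polynomial of an element of the Lie algebra
-/

set_option autoImplicit false
set_option linter.unusedSectionVars false

open Matrix Polynomial

namespace Pool.Agent.L7h78.VC

variable {F : Type} [Field F] {N : ℕ} {J : Matrix (Fin N) (Fin N) F}

theorem E_lie (hJ : Jᵀ = -J) (u : Fin N → F) : (E J u u)ᵀ * J + J * E J u u = 0 := by
  unfold E
  rw [transpose_vecMulVec, vecMulVec_mul, mul_vecMulVec, ← mulVec_transpose, hJ, neg_mulVec,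
    vecMulVec_neg, neg_add_cancel]

/-- the sum of the elements of the family -/
noncomputable def Xa (J : Matrix (Fin N) (Fin N) F) {n : ℕ} (e f : Fin n → Fin N → F)
    (a : Fin n → F) : Matrix (Fin N) (Fin N) F :=
  ∑ i, a i • (E J (e i) (e i) + E J (f i) (f i))

theorem Xa_mulVec {n : ℕ} (e f : Fin n → Fin N → F) (a : Fin n → F) (x : Fin N → F) :
    Xa J e f a *ᵥ x = ∑ i, a i • (bt J x (e i) • e i + bt J x (f i) • f i) := by
  unfold Xa
  rw [sum_mulVec]
  refine Finset.sum_congr rfl fun i _ => ?_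
  rw [smul_mulVec, add_mulVec, E_mulVec, E_mulVec]

theorem exists_elt [CharZero F] (hJ : Jᵀ = -J) (𝔤 : Submodule F (Matrix (Fin N) (Fin N) F))
    {n : ℕ} {e f : Fin n → Fin N → F} (h : Fam J 𝔤 n e f)
    (hs : Submodule.span F (Set.range e ∪ Set.range f) = ⊤) (a : Fin n → F) :
    Xa J e f a ∈ 𝔤 ∧ (Xa J e f a)ᵀ * J + J * Xa J e f a = 0 ∧
      (Xa J e f a).charpoly =
        (blockDiagonal fun i => !![0, -(a i * bt J (e i) (f i)); a i * bt J (e i) (f i), 0]).charpoly
    := by
  classical
  refine ⟨?_, ?_, ?_⟩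
  · unfold Xa
    exact 𝔤.sum_mem fun i _ => 𝔤.smul_mem _ (𝔤.add_mem (h.he i) (h.hf i))
  · unfold Xa
    rw [transpose_sum, Finset.sum_mul, Finset.mul_sum, ← Finset.sum_add_distrib]
    refine Finset.sum_eq_zero fun i _ => ?_
    rw [transpose_smul, smul_mul_assoc, mul_smul_comm, ← smul_add, transpose_add, add_mul, mul_add]
    have h1 := E_lie hJ (e i)
    have h2 := E_lie hJ (f i)
    have h3 : (E J (e i) (e i))ᵀ * J + (E J (f i) (f i))ᵀ * J +
        (J * E J (e i) (e i) + J * E J (f i) (f i)) =
        ((E J (e i) (e i))ᵀ * J + J * E J (e i) (e i)) +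
        ((E J (f i) (f i))ᵀ * J + J * E J (f i) (f i)) := by abel
    rw [h3, h1, h2, add_zero, smul_zero]
  · set v : Fin 2 × Fin n → Fin N → F := fun q => if q.1 = 0 then e q.2 else f q.2 with hv
    have hli : LinearIndependent F v := h.indep hJ
    have hsp : ⊤ ≤ Submodule.span F (Set.range v) := by
      rw [← hs]
      refine Submodule.span_mono ?_
      rintro x (⟨i, rfl⟩ | ⟨i, rfl⟩)
      · exact ⟨(0, i), by simp [hv]⟩
      · exact ⟨(1, i), by simp [hv]⟩
    let b : Module.Basis (Fin 2 × Fin n) F (Fin N → F) := Module.Basis.mk hli hsp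
    have hb : ∀ q, b q = v q := fun q => by
      simp only [b, Module.Basis.mk_apply]
    have hXe : ∀ k, Xa J e f a *ᵥ e k = (a k * bt J (e k) (f k)) • f k := by
      intro k
      rw [Xa_mulVec, Finset.sum_eq_single k]
      · rw [bt_self hJ, zero_smul, zero_add, smul_smul]
      · intro i _ hi
        rw [h.ee k i hi.symm, h.ef k i hi.symm, zero_smul, zero_smul, add_zero, smul_zero]
      · intro hk; exact absurd (Finset.mem_univ k) hk
    have hXf : ∀ k, Xa J e f a *ᵥ f k = (-(a k * bt J (e k) (f k))) • e k := by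
      intro k
      rw [Xa_mulVec, Finset.sum_eq_single k]
      · rw [bt_self hJ (f k), zero_smul, add_zero, smul_smul, bt_swap_alt hJ (f k), mul_neg]
      · intro i _ hi
        rw [h.fe k i hi.symm, h.ff k i hi.symm, zero_smul, zero_smul, add_zero, smul_zero]
      · intro hk; exact absurd (Finset.mem_univ k) hk
    have hlin : Matrix.toLin' (Xa J e f a) = Matrix.toLin b b
        (blockDiagonal fun i => !![0, -(a i * bt J (e i) (f i)); a i * bt J (e i) (f i), 0]) := by
      refine b.ext fun q => ?_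
      rw [Matrix.toLin_self, Matrix.toLin'_apply, hb]
      obtain ⟨i, k⟩ := q
      rw [Fintype.sum_prod_type_right, Finset.sum_eq_single k]
      · rw [Fin.sum_univ_two, blockDiagonal_apply_eq, blockDiagonal_apply_eq, hb, hb]
        fin_cases i
        · simp [hv, hXe]
        · simp [hv, hXf]
      · intro j _ hj
        refine Finset.sum_eq_zero fun i' _ => ?_
        rw [blockDiagonal_apply_ne _ _ _ hj, zero_smul]
      · intro hk; exact absurd (Finset.mem_univ k) hk
    have h1 : (Xa J e f a).charpoly = (Matrix.toLin' (Xa J e f a)).charpoly :=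
      (Matrix.charpoly_toLin' _).symm
    rw [h1, hlin, ← LinearMap.charpoly_toMatrix _ b, LinearMap.toMatrix_toLin]

end Pool.Agent.L7h78.VC
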