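import Pool.Agent.L7h78.VC.Sy

/-!
# Unipotent elements with one Jordan block of size three: linear algebra
-/

set_option autoImplicit false
set_option linter.unusedSectionVars false

open Matrix

namespace Pool.Agent.L7h78.VC

variable {F : Type} [Field F] [CharZero F] {N : ℕ} {J : Matrix (Fin N) (Fin N) F}

theorem La_mulVec (u v x : Fin N → F) : La J u v *ᵥ x = bt J x v • u - bt J x u • v := by
  unfold La
  rw [sub_mulVec, E_mulVec, E_mulVec]

theorem La_lie (hJ : Jᵀ = J) (u v : Fin N → F) : (La J u v)ᵀ * J + J * La J u v = (0 : F) • J := by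
  unfold La E
  rw [transpose_sub, transpose_vecMulVec, transpose_vecMulVec, sub_mul, mul_sub, vecMulVec_mul,
    vecMulVec_mul, mul_vecMulVec, mul_vecMulVec, ← mulVec_transpose, ← mulVec_transpose, hJ,
    zero_smul]
  abel

/-- bracket of two wedges -/
theorem bracket_La_La (hJ : Jᵀ = J) (a b u v : Fin N → F) :
    La J a b * La J u v - La J u v * La J a b =
      La J (La J a b *ᵥ u) v + La J u (La J a b *ᵥ v) := by
  rw [bracket_La (La_lie hJ a b), zero_smul, sub_zero]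

section

variable (hJ : Jᵀ = J) (𝔤 : Submodule F (Matrix (Fin N) (Fin N) F))
  (hlie : ∀ X ∈ 𝔤, ∀ Y ∈ 𝔤, X * Y - Y * X ∈ 𝔤)

include hJ hlie

/-- `W` is the same for all non-isotropic vectors in it -/
theorem W_eq {δ r : Fin N → F} (hδ : bt J δ δ ≠ 0) (hr : bt J r r ≠ 0) (h : r ∈ W J 𝔤 δ) :
    W J 𝔤 r = W J 𝔤 δ := by
  have hsw : δ ∈ W J 𝔤 r := by
    rw [mem_W, La_swap]
    exact 𝔤.neg_mem h
  ext x
  constructor
  · intro hx
    exact La_mem hJ 𝔤 hlie hr hx hsw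
  · intro hx
    exact La_mem hJ 𝔤 hlie hδ hx h

/-- three orthogonal vectors -/
theorem three_stable {r₁ r₂ r₃ : Fin N → F} (h1 : bt J r₁ r₁ ≠ 0) (h2 : bt J r₂ r₂ ≠ 0)
    (h3 : bt J r₃ r₃ ≠ 0) (h12 : bt J r₁ r₂ = 0) (h13 : bt J r₁ r₃ = 0) (h23 : bt J r₂ r₃ = 0)
    (m12 : La J r₁ r₂ ∈ 𝔤) (m13 : La J r₁ r₃ ∈ 𝔤) (m23 : La J r₂ r₃ ∈ 𝔤)
    (hmul : ∀ X ∈ 𝔤, ∃ c : F, Xᵀ * J + J * X = c • J) {X : Matrix (Fin N) (Fin N) F}
    (hX : X ∈ 𝔤) : La J (X *ᵥ r₁) r₁ ∈ 𝔤 := by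
  obtain ⟨c, hc⟩ := hmul X hX
  have s1 := hlie _ hX _ m12
  rw [bracket_La hc] at s1
  have s2 : La J (X *ᵥ r₁) r₂ + La J r₁ (X *ᵥ r₂) ∈ 𝔤 := by
    have := 𝔤.add_mem s1 (𝔤.smul_mem c m12)
    rwa [sub_add_cancel] at this
  have s3 := hlie _ m23 _ s2
  have e1 : La J r₂ r₃ * (La J (X *ᵥ r₁) r₂ + La J r₁ (X *ᵥ r₂)) -
      (La J (X *ᵥ r₁) r₂ + La J r₁ (X *ᵥ r₂)) * La J r₂ r₃ =
      (La J (La J r₂ r₃ *ᵥ (X *ᵥ r₁)) r₂ + La J (X *ᵥ r₁) (La J r₂ r₃ *ᵥ r₂)) +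
      (La J (La J r₂ r₃ *ᵥ r₁) (X *ᵥ r₂) + La J r₁ (La J r₂ r₃ *ᵥ (X *ᵥ r₂))) := by
    rw [← bracket_La_La hJ, ← bracket_La_La hJ, mul_add, add_mul]
    abel
  have h32 : bt J r₃ r₂ = 0 := by rw [bt_swap_symm hJ, h23]
  have z1 : La J r₂ r₃ *ᵥ r₁ = (0 : F) • r₁ := by
    rw [La_mulVec, h12, h13]; simp
  have z2 : La J r₂ r₃ *ᵥ r₂ = (-bt J r₂ r₂) • r₃ := by
    rw [La_mulVec, h23]; simp
  rw [e1, z1, z2, La_mulVec, La_mulVec] at s3
  have e2 : La J (bt J (X *ᵥ r₁) r₃ • r₂ - bt J (X *ᵥ r₁) r₂ • r₃) r₂ +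
        La J (X *ᵥ r₁) (-bt J r₂ r₂ • r₃) +
      (La J ((0 : F) • r₁) (X *ᵥ r₂) +
        La J r₁ (bt J (X *ᵥ r₂) r₃ • r₂ - bt J (X *ᵥ r₂) r₂ • r₃)) =
      bt J (X *ᵥ r₁) r₂ • La J r₂ r₃ - bt J r₂ r₂ • La J (X *ᵥ r₁) r₃ +
        bt J (X *ᵥ r₂) r₃ • La J r₁ r₂ - bt J (X *ᵥ r₂) r₂ • La J r₁ r₃ := by
    simp only [sub_eq_add_neg, ← neg_smul, La_add_left, La_add_right, La_smul_left, La_smul_right,
      La_self, La_swap r₂ r₃]
    module
  rw [e2] at s3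
  have s4 : bt J r₂ r₂ • La J (X *ᵥ r₁) r₃ ∈ 𝔤 := by
    have := 𝔤.sub_mem (𝔤.sub_mem (𝔤.add_mem (𝔤.smul_mem (bt J (X *ᵥ r₁) r₂) m23)
      (𝔤.smul_mem (bt J (X *ᵥ r₂) r₃) m12)) (𝔤.smul_mem (bt J (X *ᵥ r₂) r₂) m13)) s3
    convert this using 1
    abel
  have s5 : La J (X *ᵥ r₁) r₃ ∈ 𝔤 := by
    have := 𝔤.smul_mem (bt J r₂ r₂)⁻¹ s4
    rwa [smul_smul, inv_mul_cancel₀ h2, one_smul] at this
  have s6 : X *ᵥ r₁ ∈ W J 𝔤 r₁ := by
    rw [← W_eq hJ 𝔤 hlie h1 h3 (by rw [mem_W, La_swap]; exact 𝔤.neg_mem m13)]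
    exact s5
  exact s6

/-- two isotropic vectors with non-isotropic partners generate three orthogonal vectors -/
theorem exists_three {u u' v v' : Fin N → F} (huu : bt J u u = 0) (huv : bt J u v = 0)
    (hvv : bt J v v ≠ 0) (huu' : bt J u' u' = 0) (huv' : bt J u' v' = 0) (hvv' : bt J v' v' ≠ 0)
    (hm : La J u v ∈ 𝔤) (hm' : La J u' v' ∈ 𝔤) (hh : bt J u u' ≠ 0) :
    ∃ r₁ r₂ r₃ : Fin N → F, bt J r₁ r₁ ≠ 0 ∧ bt J r₂ r₂ ≠ 0 ∧ bt J r₃ r₃ ≠ 0 ∧
      bt J r₁ r₂ = 0 ∧ bt J r₁ r₃ = 0 ∧ bt J r₂ r₃ = 0 ∧ La J r₁ r₂ ∈ 𝔤 ∧ La J r₁ r₃ ∈ 𝔤 ∧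
      La J r₂ r₃ ∈ 𝔤 ∧ La J u r₁ ∈ 𝔤 := by
  have hh' : bt J u' u ≠ 0 := by rwa [bt_swap_symm hJ]
  -- the key computation
  have key : ∀ {u u' : Fin N → F}, bt J u u = 0 → bt J u' u' = 0 → bt J u u' ≠ 0 →
      ∀ y y' a : Fin N → F, bt J y u = 0 → bt J y u' = 0 → bt J y' u = 0 → bt J y' u' = 0 →
      bt J a u = 0 → bt J a u' = 0 → La J u y ∈ 𝔤 → La J u' y' ∈ 𝔤 → La J u a ∈ 𝔤 →
      (bt J u u' • La J y y' + bt J y y' • La J u u' ∈ 𝔤) ∧ bt J a y • La J u y' ∈ 𝔤 := by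
    intro u u' huu huu' hh y y' a hyu hyu' hy'u hy'u' hau hau' my my' ma
    have huy : bt J u y = 0 := by rw [bt_swap_symm hJ, hyu]
    have hu'y : bt J u' y = 0 := by rw [bt_swap_symm hJ, hyu']
    have huy' : bt J u y' = 0 := by rw [bt_swap_symm hJ, hy'u]
    have hu'u : bt J u' u = bt J u u' := bt_swap_symm hJ _ _
    have s1 := hlie _ my _ my'
    rw [bracket_La_La hJ, La_mulVec, La_mulVec, hu'y, hu'u, hy'u, zero_smul, zero_smul, zero_sub,
      sub_zero, ← neg_smul, La_smul_left, La_smul_right, bt_swap_symm hJ y' y, La_swap u u'] at s1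
    have s2 : bt J u u' • La J y y' + bt J y y' • La J u u' ∈ 𝔤 := by
      have := 𝔤.neg_mem s1
      convert this using 1
      module
    refine ⟨s2, ?_⟩
    have s3 := hlie _ s2 _ ma
    have e1 : (bt J u u' • La J y y' + bt J y y' • La J u u') * La J u a -
        La J u a * (bt J u u' • La J y y' + bt J y y' • La J u u') =
        bt J u u' • (La J (La J y y' *ᵥ u) a + La J u (La J y y' *ᵥ a)) +
        bt J y y' • (La J (La J u u' *ᵥ u) a + La J u (La J u u' *ᵥ a)) := by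
      rw [← bracket_La_La hJ, ← bracket_La_La hJ, add_mul, mul_add]
      simp only [smul_mul_assoc, mul_smul_comm, smul_sub]
      abel
    rw [e1] at s3
    simp only [La_mulVec, huy, huy', huu, hau, hau'] at s3
    simp only [zero_smul, sub_eq_add_neg, ← neg_smul, neg_zero, add_zero, La_add_right,
      La_smul_left, La_smul_right] at s3
    have s4 : bt J u u' • (bt J a y • La J u y') ∈ 𝔤 := by
      have := 𝔤.sub_mem (𝔤.add_mem (𝔤.smul_mem (bt J u u' * bt J a y') my)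
        (𝔤.smul_mem (bt J u u' * bt J y y') ma)) s3
      convert this using 1
      have z : La J (0 : Fin N → F) a = 0 := by
        have := La_smul_left (J := J) (0 : F) (0 : Fin N → F) a
        simpa using this
      have z2 : La J u (0 : Fin N → F) = 0 := by
        have := La_smul_right (J := J) (0 : F) u (0 : Fin N → F)
        simpa using this
      simp only [z, z2]
      module
    have s5 := 𝔤.smul_mem (bt J u u')⁻¹ s4
    rwa [smul_smul, inv_mul_cancel₀ hh, one_smul] at s5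
  -- normalize
  set w : Fin N → F := v - (bt J v u' / bt J u u') • u with hw
  set w' : Fin N → F := v' - (bt J v' u / bt J u' u) • u' with hw'
  have hvu : bt J v u = 0 := by rw [bt_swap_symm hJ, huv]
  have hvu' : bt J v' u' = 0 := by rw [bt_swap_symm hJ, huv']
  have w1 : bt J w u = 0 := by rw [hw, bt_sub_left, bt_smul_left, hvu, huu]; ring
  have w2 : bt J w u' = 0 := by
    rw [hw, bt_sub_left, bt_smul_left, div_mul_cancel₀ _ hh, sub_self]
  have w1' : bt J w' u' = 0 := by rw [hw', bt_sub_left, bt_smul_left, hvu', huu']; ring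
  have w2' : bt J w' u = 0 := by
    rw [hw', bt_sub_left, bt_smul_left, div_mul_cancel₀ _ hh', sub_self]
  have ww : bt J w w ≠ 0 := by
    have : bt J w w = bt J v v := by
      conv_lhs => rw [hw, bt_sub_right, bt_smul_right, ← hw, w1, mul_zero, sub_zero]
      rw [hw, bt_sub_left, bt_smul_left, huv, mul_zero, sub_zero]
    rw [this]; exact hvv
  have ww' : bt J w' w' ≠ 0 := by
    have : bt J w' w' = bt J v' v' := by
      conv_lhs => rw [hw', bt_sub_right, bt_smul_right, ← hw', w1', mul_zero, sub_zero]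
      rw [hw', bt_sub_left, bt_smul_left, huv', mul_zero, sub_zero]
    rw [this]; exact hvv'
  have mw : La J u w ∈ 𝔤 := by
    rw [hw, sub_eq_add_neg, ← neg_smul, La_add_right, La_smul_right, La_self, smul_zero, add_zero]
    exact hm
  have mw' : La J u' w' ∈ 𝔤 := by
    rw [hw', sub_eq_add_neg, ← neg_smul, La_add_right, La_smul_right, La_self, smul_zero, add_zero]
    exact hm'
  -- `w` is a partner of `u'`
  have m3 : La J u' w ∈ 𝔤 := by
    have := (key huu' huu hh' w' w w' w1' w2' w2 w1 w1' w2' mw' mw mw').2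
    have := 𝔤.smul_mem (bt J w' w')⁻¹ this
    rwa [smul_smul, inv_mul_cancel₀ ww', one_smul] at this
  have m4 : La J u u' ∈ 𝔤 := by
    have := (key huu huu' hh w w w w1 w2 w1 w2 w1 w2 mw m3 mw).1
    rw [La_self, smul_zero, zero_add] at this
    have := 𝔤.smul_mem (bt J w w)⁻¹ this
    rwa [smul_smul, inv_mul_cancel₀ ww, one_smul] at this
  have hu'u : bt J u' u = bt J u u' := bt_swap_symm hJ _ _
  have hwr : bt J u w = 0 := by rw [bt_swap_symm hJ, w1]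
  have hwr' : bt J u' w = 0 := by rw [bt_swap_symm hJ, w2]
  refine ⟨w, u + u', u - u', ww, ?_, ?_, ?_, ?_, ?_, ?_, ?_, ?_, mw⟩
  · rw [bt_add_left, bt_add_right, bt_add_right, huu, huu', hu'u, zero_add, add_zero, ← two_mul]
    exact mul_ne_zero two_ne_zero hh
  · rw [bt_sub_left, bt_sub_right, bt_sub_right, huu, huu', hu'u]
    have : (0 : F) - bt J u u' - (bt J u u' - 0) = (-2) * bt J u u' := by ring
    rw [this]
    exact mul_ne_zero (by norm_num) hh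
  · rw [bt_add_right, w1, w2, add_zero]
  · rw [bt_sub_right, w1, w2, sub_zero]
  · rw [bt_add_left, bt_sub_right, bt_sub_right, huu, huu', hu'u]
    ring
  · rw [La_add_right, La_swap u w, La_swap u' w]
    exact 𝔤.add_mem (𝔤.neg_mem mw) (𝔤.neg_mem m3)
  · rw [sub_eq_add_neg, ← one_smul F u', ← neg_smul, La_add_right, La_smul_right, La_swap u w,
      La_swap u' w]
    exact 𝔤.add_mem (𝔤.neg_mem mw) (𝔤.smul_mem _ (𝔤.neg_mem m3))
  · have e : La J (u + u') (u - u') = (-2 : F) • La J u u' := by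
      rw [sub_eq_add_neg, ← one_smul F u', ← neg_smul]
      simp only [La_add_left, La_add_right, La_smul_left, La_smul_right, La_self, La_swap u u']
      module
    rw [e]
    exact 𝔤.smul_mem _ m4

end

end Pool.Agent.L7h78.VC
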