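import Pool.Agent.L7h78.VC.Tg
import Pool.Agent.L7h78.VC.Th

/-!
# Unipotent elements with one Jordan block of size three: tangent vectors of the `ℓ`-adic image
-/

set_option autoImplicit false
set_option linter.unusedSectionVars false

open Matrix Polynomial Filter Topology

namespace Pool.Agent.L7h78.VC

open Pool.Agent.Y142.ZO (IsTangent)
open Pool.Agent.Y142.ZS (Sim)
open Pool.Agent.Y708.ZO (tan mem_tan tangent_conj tangent_lie)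

variable {ℓ : ℕ} [hℓ : Fact ℓ.Prime] {N : ℕ} {G : Type} [Group G]

/-- some element acts as the exponential of `x ↦ (x, v) u - (x, u) v` -/
def Blk (ρ : G →* Matrix (Fin N) (Fin N) ℚ_[ℓ]) (J : Matrix (Fin N) (Fin N) ℚ_[ℓ])
    (u v : Fin N → ℚ_[ℓ]) : Prop :=
  u ⬝ᵥ J *ᵥ u = 0 ∧ u ⬝ᵥ J *ᵥ v = 0 ∧ v ⬝ᵥ J *ᵥ v ≠ 0 ∧ ∃ g : G, ∀ x,
    ρ g *ᵥ x = x + (x ⬝ᵥ J *ᵥ v) • u - (x ⬝ᵥ J *ᵥ u) • v -
      (2⁻¹ * (v ⬝ᵥ J *ᵥ v) * (x ⬝ᵥ J *ᵥ u)) • u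

theorem tangent_of_blk {ρ : G →* Matrix (Fin N) (Fin N) ℚ_[ℓ]}
    {J : Matrix (Fin N) (Fin N) ℚ_[ℓ]} (hJ : Jᵀ = J) {u v : Fin N → ℚ_[ℓ]} (h : Blk ρ J u v) :
    La J u v ∈ tan ρ := by
  obtain ⟨huu, huv, hvv, g, hg0⟩ := h
  change bt J u u = 0 at huu
  change bt J u v = 0 at huv
  have hvu : bt J v u = 0 := by rw [bt_swap_symm hJ, huv]
  have hg : ρ g = 1 + La J u v - (2⁻¹ * bt J v v) • E J u u := by
    refine Matrix.mulVec_injective ?_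
    funext x
    rw [hg0, sub_mulVec, add_mulVec, one_mulVec, smul_mulVec, E_mulVec, smul_smul, La_mulVec]
    unfold bt
    abel
  have n2 : La J u v * La J u v = (-bt J v v) • E J u u := by
    unfold La
    rw [sub_mul, mul_sub, mul_sub, E_E, E_E, E_E, E_E, huv, huu, hvu]
    module
  have nq : La J u v * E J u u = 0 := by
    unfold La
    rw [sub_mul, E_E, E_E, huv, huu]
    simp
  have qn : E J u u * La J u v = 0 := by
    unfold La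
    rw [mul_sub, E_E, E_E, hvu, huu]
    simp
  have qq : E J u u * E J u u = 0 := by
    rw [E_E, huu, zero_smul]
  have hpow : ∀ m : ℕ, ρ (g ^ m) = 1 + (m : ℚ_[ℓ]) • La J u v -
      ((m : ℚ_[ℓ]) ^ 2 * (2⁻¹ * bt J v v)) • E J u u := by
    intro m
    induction m with
    | zero => rw [pow_zero, map_one, Nat.cast_zero]; simp
    | succ m ih =>
      rw [pow_succ, map_mul, ih, hg]
      simp only [mul_sub, mul_add, sub_mul, add_mul, one_mul, mul_one, smul_mul_assoc,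
        mul_smul_comm, n2, nq, qn, qq, smul_zero, Nat.cast_succ]
      module
  rw [mem_tan]
  refine ⟨fun n => g ^ (ℓ ^ n), ?_⟩
  have h1 : ∀ n : ℕ, ((ℓ : ℚ_[ℓ]) ^ n)⁻¹ • (ρ (g ^ (ℓ ^ n)) - 1) =
      La J u v - (((ℓ : ℚ_[ℓ]) ^ n) * (2⁻¹ * bt J v v)) • E J u u := by
    intro n
    have hne : ((ℓ : ℚ_[ℓ]) ^ n) ≠ 0 := pow_ne_zero _ (Pool.Agent.Y708.ZO.ell_ne)
    rw [hpow, Nat.cast_pow, add_sub_assoc, add_sub_cancel_left, smul_sub, smul_smul, smul_smul,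
      inv_mul_cancel₀ hne, one_smul]
    congr 2
    field_simp
  simp only [h1]
  have h2 : Tendsto (fun n : ℕ => La J u v -
      (((ℓ : ℚ_[ℓ]) ^ n) * (2⁻¹ * bt J v v)) • E J u u) atTop
      (𝓝 (La J u v - ((0 : ℚ_[ℓ]) * (2⁻¹ * bt J v v)) • E J u u)) :=
    tendsto_const_nhds.sub
      (((Pool.Agent.Y708.ZO.pow_tendsto (ℓ := ℓ)).mul tendsto_const_nhds).smul tendsto_const_nhds)
  rwa [zero_mul, zero_smul, sub_zero] at h2

/-- conjugates of wedges -/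
theorem tangent_conj_La {ρ : G →* Matrix (Fin N) (Fin N) ℚ_[ℓ]}
    {J : Matrix (Fin N) (Fin N) ℚ_[ℓ]} (hJ0 : J ≠ 0) {g : G} {c : ℚ_[ℓ]} (hc : Sim J (ρ g) c)
    {u v : Fin N → ℚ_[ℓ]} (h : La J u v ∈ tan ρ) :
    c ≠ 0 ∧ La J (ρ g *ᵥ u) (ρ g *ᵥ v) ∈ tan ρ := by
  have h1 : ρ g * ρ g⁻¹ = 1 := by rw [← map_mul, mul_inv_cancel, map_one]
  have hc' : (ρ g)ᵀ * J * ρ g = c • J := hc
  have h2 : J * ρ g = c • ((ρ g⁻¹)ᵀ * J) := by
    have h3 : (ρ g⁻¹)ᵀ * (ρ g)ᵀ = 1 := by rw [← transpose_mul, h1, transpose_one]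
    calc J * ρ g = ((ρ g⁻¹)ᵀ * (ρ g)ᵀ) * (J * ρ g) := by rw [h3, one_mul]
      _ = (ρ g⁻¹)ᵀ * ((ρ g)ᵀ * J * ρ g) := by simp only [Matrix.mul_assoc]
      _ = c • ((ρ g⁻¹)ᵀ * J) := by rw [hc', mul_smul_comm]
  have hc0 : c ≠ 0 := by
    intro h0
    rw [h0, zero_smul] at h2
    apply hJ0
    calc J = J * (ρ g * ρ g⁻¹) := by rw [h1, mul_one]
      _ = 0 := by rw [← mul_assoc, h2, zero_mul]
  refine ⟨hc0, ?_⟩
  have h3 : ∀ a b : Fin N → ℚ_[ℓ], ρ g * E J a b * ρ g⁻¹ = c⁻¹ • E J (ρ g *ᵥ a) (ρ g *ᵥ b) := by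
    intro a b
    rw [mul_E]
    unfold E
    rw [vecMulVec_mul, ← mulVec_transpose, ← vecMulVec_smul]
    congr 1
    rw [mulVec_mulVec, mulVec_mulVec, h2, smul_mulVec, smul_smul, inv_mul_cancel₀ hc0, one_smul]
  have h4 := tangent_conj ρ g h
  have h5 : ρ g * La J u v * ρ g⁻¹ = c⁻¹ • La J (ρ g *ᵥ u) (ρ g *ᵥ v) := by
    unfold La
    rw [mul_sub, sub_mul, h3, h3, smul_sub]
  rw [h5] at h4
  have h6 := (tan ρ).smul_mem c h4
  rwa [smul_smul, mul_inv_cancel₀ hc0, one_smul] at h6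

theorem bt_sim {J M : Matrix (Fin N) (Fin N) ℚ_[ℓ]} {c : ℚ_[ℓ]} (hc : Sim J M c)
    (x y : Fin N → ℚ_[ℓ]) : bt J (M *ᵥ x) (M *ᵥ y) = c * bt J x y := by
  have hc' : Mᵀ * J * M = c • J := hc
  unfold bt
  have h1 : (M *ᵥ x) ⬝ᵥ J *ᵥ (M *ᵥ y) = x ⬝ᵥ (Mᵀ * J * M) *ᵥ y := by
    rw [Matrix.mul_assoc, ← mulVec_mulVec y Mᵀ (J * M), dotProduct_mulVec x, vecMul_transpose,
      mulVec_mulVec]
  rw [h1, hc', smul_mulVec, dotProduct_smul, smul_eq_mul]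

/-- **a unipotent element with one block of size three**: the Lie algebra of the image is full -/
theorem full_of_blk {G : Type} [Group G] [TopologicalSpace G] [IsTopologicalGroup G]
    {ρ : G →* Matrix (Fin N) (Fin N) ℚ_[ℓ]} (hρ : Continuous ρ)
    {J : Matrix (Fin N) (Fin N) ℚ_[ℓ]} (hJ : Jᵀ = J) (hd : J.det ≠ 0)
    (hI : ∀ g, ∃ c, Sim J (ρ g) c) {u v : Fin N → ℚ_[ℓ]} (h : Blk ρ J u v)
    (hspan : ∀ Δ : Subgroup G, IsOpen (Δ : Set G) →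
      Submodule.span ℚ_[ℓ] {x | ∃ σ ∈ Δ, x = ρ σ *ᵥ u} = ⊤)
    {X : Matrix (Fin N) (Fin N) ℚ_[ℓ]} (hX : Xᵀ * J + J * X = 0) : IsTangent ℓ ρ X := by
  have hm := tangent_of_blk hJ h
  obtain ⟨huu, huv, hvv, -⟩ := h
  change bt J u u = 0 at huu
  change bt J u v = 0 at huv
  change bt J v v ≠ 0 at hvv
  have hlie : ∀ X ∈ tan ρ, ∀ Y ∈ tan ρ, X * Y - Y * X ∈ tan ρ := fun X hX Y hY =>
    tangent_lie ρ hX hY
  have hmul : ∀ X ∈ tan ρ, ∃ c : ℚ_[ℓ], Xᵀ * J + J * X = c • J := fun X hX =>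
    Pool.Agent.Y710.ZS.t1 ℓ N G ρ J hd hI X hX
  have hJ0 : J ≠ 0 := by
    intro h0
    apply hvv
    rw [h0]
    unfold bt
    rw [zero_mulVec, dotProduct_zero]
  have hu0 : u ≠ 0 := by
    intro h0
    have h1 := hspan ⊤ (by simp)
    have h3 : (⊤ : Submodule ℚ_[ℓ] (Fin N → ℚ_[ℓ])) ≤ ⊥ := by
      rw [← h1, Submodule.span_le]
      rintro x ⟨σ, -, rfl⟩
      rw [h0, mulVec_zero]
      exact Submodule.zero_mem _
    have h4 : v ∈ (⊥ : Submodule ℚ_[ℓ] (Fin N → ℚ_[ℓ])) := h3 trivial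
    rw [Submodule.mem_bot] at h4
    apply hvv
    rw [h4, bt_zero_left]
  obtain ⟨g, hg⟩ : ∃ g : G, bt J u (ρ g *ᵥ u) ≠ 0 := by
    by_contra hcon
    push Not at hcon
    apply hu0
    refine eq_zero_of_bt hd fun y => ?_
    have hy : y ∈ Submodule.span ℚ_[ℓ] {x | ∃ σ ∈ (⊤ : Subgroup G), x = ρ σ *ᵥ u} := by
      rw [hspan ⊤ (by simp)]; trivial
    induction hy using Submodule.span_induction with
    | mem x hx =>
      obtain ⟨σ, -, rfl⟩ := hx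
      exact hcon σ
    | zero => exact bt_zero_right _ _
    | add x y _ _ hx hy => rw [bt_add_right, hx, hy, add_zero]
    | smul c x _ hx => rw [bt_smul_right, hx, mul_zero]
  obtain ⟨c, hc⟩ := hI g
  obtain ⟨hc0, hm'⟩ := tangent_conj_La hJ0 hc hm
  obtain ⟨r₁, r₂, r₃, h1, h2, h3, h12, h13, h23, m12, m13, m23, mu⟩ :=
    exists_three hJ (tan ρ) hlie huu huv hvv (u' := ρ g *ᵥ u) (v' := ρ g *ᵥ v)
      (by rw [bt_sim hc, huu, mul_zero]) (by rw [bt_sim hc, huv, mul_zero])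
      (by rw [bt_sim hc]; exact mul_ne_zero hc0 hvv) hm hm' hg
  have hδX : ∀ X ∈ tan ρ, La J (X *ᵥ r₁) r₁ ∈ tan ρ := fun X hX =>
    three_stable hJ (tan ρ) hlie h1 h2 h3 h12 h13 h23 m12 m13 m23 hmul hX
  obtain ⟨U, hU, hUW⟩ := Pool.Agent.Y497.ZO.exp ℓ N G ρ hρ (W J (tan ρ) r₁) (W J (tan ρ) r₁) le_rfl
    (fun X hX w hw => W_stable hJ (tan ρ) hlie h1 hmul hδX hX hw)
  have huW : u ∈ W J (tan ρ) r₁ := mu
  have hWtop : W J (tan ρ) r₁ = ⊤ := by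
    rw [eq_top_iff, ← hspan U hU, Submodule.span_le]
    rintro x ⟨σ, hσ, rfl⟩
    have h1 := hUW σ hσ u huW
    have h2 := (W J (tan ρ) r₁).add_mem h1 huW
    rwa [sub_add_cancel] at h2
  exact full_of_top hJ (tan ρ) hlie hd h1 hWtop hX

end Pool.Agent.L7h78.VC
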