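import Pool.Agent.L7h78.VC.Fin
import Pool.Agent.L7h78.VC.Tb

/-!
# A unipotent element with one block of size three at one prime number and semisimplicity at every
prime number
-/

set_option autoImplicit false
set_option linter.unusedSectionVars false

open Matrix Polynomial Filter Topology NumberField IsDedekindDomain Module
open Pool.Agent.Y142.ZO Pool.Agent.Y142.ZI Pool.Agent.Y142.ZS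
open Pool.Agent.R932.SQ Pool.Agent.N171.TG

namespace Pool.Agent.L7h78.VC

theorem ss_of_blk {K : Type} [Field K] [NumberField K] (hK : finrank ℚ K = 1)
    {Γ : Type} [Group Γ] (θ : GK K →* Γ) {N w : ℕ} (hw : 0 < w)
    {S : Set (HeightOneSpectrum (𝓞 K))} (hS : S.Finite) (P : HeightOneSpectrum (𝓞 K) → ℤ[X])
    (hP : ∀ v ∉ S, (P v).Monic ∧
      ∀ z : ℂ, aeval z (P v) = 0 → ‖z‖ ^ 2 = (Ideal.absNorm v.asIdeal : ℝ) ^ w)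
    (ρ : ∀ (ℓ : ℕ) [Fact ℓ.Prime], Γ →* Matrix (Fin N) (Fin N) ℚ_[ℓ])
    (hρ : ∀ (ℓ : ℕ) [Fact ℓ.Prime], Continuous ((ρ ℓ).comp θ))
    (J : ∀ (ℓ : ℕ) [Fact ℓ.Prime], Matrix (Fin N) (Fin N) ℚ_[ℓ])
    (hJ : ∀ (ℓ : ℕ) [Fact ℓ.Prime], (J ℓ)ᵀ = J ℓ ∨ (J ℓ)ᵀ = -J ℓ)
    (hdet : ∀ (ℓ : ℕ) [Fact ℓ.Prime], (J ℓ).det ≠ 0)
    (χ : ∀ (ℓ : ℕ) [Fact ℓ.Prime], Γ → ℚ_[ℓ])
    (hχ : ∀ (ℓ : ℕ) [Fact ℓ.Prime] (g : Γ), (ρ ℓ g)ᵀ * J ℓ * ρ ℓ g = χ ℓ g • J ℓ)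
    (hfrob : ∀ (ℓ : ℕ) [Fact ℓ.Prime], ∀ v ∉ S, (ℓ : 𝓞 K) ∉ v.asIdeal → ∀ σ : GK K,
      IsFrobenius v σ → (ρ ℓ (θ σ⁻¹)).charpoly = (P v).map (algebraMap ℤ ℚ_[ℓ]) ∧
      χ ℓ (θ σ⁻¹) = (Ideal.absNorm v.asIdeal : ℚ_[ℓ]) ^ w)
    (ℓ₀ : ℕ) [hℓ₀ : Fact ℓ₀.Prime] (u v : Fin N → ℚ_[ℓ₀])
    (hblk : Blk ((ρ ℓ₀).comp θ) (J ℓ₀) u v)
    (hspan : ∀ Δ : Subgroup (GK K), IsOpen (Δ : Set (GK K)) →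
          Submodule.span ℚ_[ℓ₀] {x | ∃ σ ∈ Δ, x = ((ρ ℓ₀).comp θ) σ *ᵥ u} = ⊤)
    (ℓ : ℕ) [hℓ : Fact ℓ.Prime] (U : Subgroup Γ) (hU : U.FiniteIndex) :
    SSu (endRep (ρ ℓ)) U := by
  have hJ0 : (J ℓ₀)ᵀ = J ℓ₀ := by
    rcases hJ ℓ₀ with h | h
    · exact h
    · exact absurd (bt_self h v) hblk.2.2.1
  refine SSu.finite_index (fun M hM => ?_) U hU
  obtain ⟨h1, h2⟩ := semisimple_full hK θ hw hS P hP ρ hρ J hJ hdet χ hχ hfrob ℓ₀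
    (fun X hX => full_of_blk (hρ ℓ₀) hJ0 (hdet ℓ₀) (fun g => ⟨_, hχ ℓ₀ (θ g)⟩) hblk hspan hX)
    ℓ M (fun g x hx => hM g (Subgroup.mem_top g) x hx)
  exact ⟨_, fun g _ x hx => h2 g x hx, h1⟩

end Pool.Agent.L7h78.VC
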