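import Pool.Agent.L7h78.VC.Tb

/-!
# Unipotent similitudes with one Jordan block of size three
-/

set_option autoImplicit false
set_option linter.unusedSectionVars false

open Matrix

namespace Pool.Agent.L7h78.VC

variable {F : Type} [Field F] [CharZero F] {N : ℕ} {J : Matrix (Fin N) (Fin N) F}

/-- a unipotent similitude with one Jordan block of size three and all others of size one is the
exponential of a wedge -/
theorem wedge_of_jordan (hJ : Jᵀ = J) (hd : J.det ≠ 0) {A : Matrix (Fin N) (Fin N) F} {c : F}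
    (hs : ∀ x y, bt J (x + A *ᵥ x) (y + A *ᵥ y) = c * bt J x y)
    (h3 : ∀ x, A *ᵥ (A *ᵥ (A *ᵥ x)) = 0) {x₀ : Fin N → F} (h2 : A *ᵥ (A *ᵥ x₀) ≠ 0)
    (hr : ∀ y, ∃ a b : F, A *ᵥ y = a • (A *ᵥ x₀) + b • (A *ᵥ (A *ᵥ x₀))) :
    ∃ (s : F) (u v : Fin N → F), s ≠ 0 ∧ A *ᵥ (A *ᵥ x₀) = s • u ∧ bt J u u = 0 ∧ bt J u v = 0 ∧
      bt J v v ≠ 0 ∧ ∀ y, y + A *ᵥ y = y + bt J y v • u - bt J y u • v -
        (2⁻¹ * bt J v v * bt J y u) • u := by
  obtain ⟨w, hw⟩ : ∃ w, w = A *ᵥ x₀ := ⟨_, rfl⟩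
  obtain ⟨u₀, hu⟩ : ∃ u₀, u₀ = A *ᵥ (A *ᵥ x₀) := ⟨_, rfl⟩
  rw [← hw] at hr
  have hAw : A *ᵥ w = u₀ := by rw [hw, hu]
  have hAu : A *ᵥ u₀ = 0 := by rw [hu]; exact h3 x₀
  rw [← hu] at h2
  rw [hAw] at hr
  rw [← hu]
  -- the factor is one
  obtain ⟨y₁, hy₁⟩ : ∃ y, bt J y u₀ ≠ 0 := by
    by_contra hcon
    push Not at hcon
    apply h2
    refine eq_zero_of_bt hd fun y => ?_
    rw [bt_swap_symm hJ]
    exact hcon y
  have hf : ∀ y, bt J (A *ᵥ y) u₀ = (c - 1) * bt J y u₀ := by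
    intro y
    have h4 := hs y u₀
    rw [hAu, add_zero, bt_add_left] at h4
    linear_combination h4
  have hc : c = 1 := by
    have h4 : (c - 1) * ((c - 1) * ((c - 1) * bt J y₁ u₀)) = 0 := by
      rw [← hf, ← hf, ← hf, h3, bt_zero_left]
    have h5 : c - 1 = 0 := by
      by_contra h6
      exact (mul_ne_zero h6 (mul_ne_zero h6 (mul_ne_zero h6 hy₁))) h4
    exact sub_eq_zero.1 h5
  rw [hc] at hs hf
  have hiso : ∀ x y, bt J (A *ᵥ x) y + bt J x (A *ᵥ y) + bt J (A *ᵥ x) (A *ᵥ y) = 0 := by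
    intro x y
    have h4 := hs x y
    rw [bt_add_left, bt_add_right, bt_add_right, one_mul] at h4
    linear_combination h4
  have hAu0 : ∀ y, bt J (A *ᵥ y) u₀ = 0 := by
    intro y
    rw [hf, sub_self, zero_mul]
  have huu : bt J u₀ u₀ = 0 := by
    have := hAu0 w
    rwa [hAw] at this
  have hwu : bt J w u₀ = 0 := by
    have := hAu0 x₀
    rwa [← hw] at this
  have huw : bt J u₀ w = 0 := by rw [bt_swap_symm hJ, hwu]
  have hyw : ∀ y, bt J (A *ᵥ y) w + bt J y u₀ = 0 := by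
    intro y
    have := hiso y w
    rw [hAw, hAu0, add_zero] at this
    exact this
  obtain ⟨s, hsd⟩ : ∃ s, s = bt J w w := ⟨_, rfl⟩
  choose φ ψ hφ using hr
  have hφs : ∀ y, φ y * s = -bt J y u₀ := by
    intro y
    have h4 := hyw y
    rw [hφ y, bt_add_left, bt_smul_left, bt_smul_left, huw, mul_zero, add_zero, ← hsd] at h4
    linear_combination h4
  have hs0 : s ≠ 0 := by
    intro h0
    have h4 := hφs y₁
    rw [h0, mul_zero] at h4
    exact hy₁ (by linear_combination h4)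
  have hu' : u₀ = s • (s⁻¹ • u₀) := by rw [smul_smul, mul_inv_cancel₀ hs0, one_smul]
  obtain ⟨u, hud⟩ : ∃ u, u = s⁻¹ • u₀ := ⟨_, rfl⟩
  rw [← hud] at hu'
  have hφu : ∀ y, φ y = -bt J y u := by
    intro y
    have h4 := hφs y
    rw [hu', bt_smul_right] at h4
    have h5 : s * (φ y + bt J y u) = 0 := by linear_combination h4
    have h6 := (mul_eq_zero.1 h5).resolve_left hs0
    linear_combination h6
  have huu' : bt J u u = 0 := by rw [hud, bt_smul_left, bt_smul_right, huu]; ring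
  have huw' : bt J u w = 0 := by rw [hud, bt_smul_left, huw, mul_zero]
  -- the second functional
  have hq : ∀ y, bt J y u * (ψ y * s + (s / 2) * bt J y u - bt J y w) = 0 := by
    intro y
    have h4 := hiso y y
    rw [bt_swap_symm hJ y (A *ᵥ y), hφ y] at h4
    simp only [bt_add_left, bt_add_right, bt_smul_left, bt_smul_right, huw, hwu, huu] at h4
    rw [← hsd, hφu, bt_swap_symm hJ w y, bt_swap_symm hJ u₀ y] at h4
    have h5 : bt J y u₀ = s * bt J y u := by
      conv_lhs => rw [hu', bt_smul_right]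
    rw [h5] at h4
    linear_combination (1 / 2 : F) * h4
  have hψadd : ∀ y z, ψ (y + z) = ψ y + ψ z := by
    intro y z
    have h4 := hφ (y + z)
    rw [mulVec_add, hφ y, hφ z, hφu, hφu, hφu, bt_add_left] at h4
    have h5 : (ψ y + ψ z - ψ (y + z)) • u₀ = 0 := by
      have : (-bt J y u) • w + ψ y • u₀ + ((-bt J z u) • w + ψ z • u₀) -
          ((-(bt J y u + bt J z u)) • w + ψ (y + z) • u₀) = (ψ y + ψ z - ψ (y + z)) • u₀ := by
        module
      rw [← this, h4, sub_self]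
    have h6 := (smul_eq_zero.1 h5).resolve_right h2
    linear_combination -h6
  have hψ : ∀ y, ψ y * s + (s / 2) * bt J y u = bt J y w := by
    intro y
    by_cases h4 : bt J y u = 0
    · -- use `y + y₁`
      have h5 : bt J y₁ u ≠ 0 := by
        intro h6
        apply hy₁
        rw [hu', bt_smul_right, h6, mul_zero]
      have h6 := (mul_eq_zero.1 (hq y₁)).resolve_left h5
      have h7 : bt J (y + y₁) u ≠ 0 := by rw [bt_add_left, h4, zero_add]; exact h5
      have h8 := (mul_eq_zero.1 (hq (y + y₁))).resolve_left h7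
      rw [hψadd, bt_add_left, bt_add_left] at h8
      linear_combination h8 - h6
    · have h5 := (mul_eq_zero.1 (hq y)).resolve_left h4
      linear_combination h5
  refine ⟨s, u, w, hs0, hu', huu', huw', by rw [← hsd]; exact hs0, fun y => ?_⟩
  rw [hφ y, hφu, ← hψ y, ← hsd, hu']
  module

end Pool.Agent.L7h78.VC
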