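import Pool.Agent.L7h78.VC.FinB
import Pool.Agent.L7h78.VC.Jd

/-!
# One Jordan block of size three at one prime number and semisimplicity at every prime number
-/

set_option autoImplicit false
set_option linter.unusedSectionVars false

open Matrix Polynomial Filter Topology NumberField IsDedekindDomain Module
open Pool.Agent.Y142.ZO Pool.Agent.Y142.ZI Pool.Agent.Y142.ZS
open Pool.Agent.R932.SQ Pool.Agent.N171.TG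

namespace Pool.Agent.L7h78.VC

theorem range_of_rank {F : Type} [Field F] {N : ℕ} {A : Matrix (Fin N) (Fin N) F}
    (h3 : ∀ x, A *ᵥ (A *ᵥ (A *ᵥ x)) = 0) {x₀ : Fin N → F} (h2 : A *ᵥ (A *ᵥ x₀) ≠ 0)
    (hrk : A.rank ≤ 2) (y : Fin N → F) :
    ∃ a b : F, A *ᵥ y = a • (A *ᵥ x₀) + b • (A *ᵥ (A *ᵥ x₀)) := by
  have hli : LinearIndependent F ![A *ᵥ x₀, A *ᵥ (A *ᵥ x₀)] := by
    rw [LinearIndependent.pair_iff]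
    intro a b hab
    have h4 := congrArg (fun z => A *ᵥ z) hab
    simp only [mulVec_add, mulVec_smul, h3, smul_zero, add_zero, mulVec_zero] at h4
    have ha : a = 0 := (smul_eq_zero.1 h4).resolve_right h2
    rw [ha, zero_smul, zero_add] at hab
    exact ⟨ha, (smul_eq_zero.1 hab).resolve_right h2⟩
  have h5 : finrank F (Submodule.span F (Set.range ![A *ᵥ x₀, A *ᵥ (A *ᵥ x₀)])) = 2 := by
    rw [finrank_span_eq_card hli, Fintype.card_fin]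
  have hle : Submodule.span F (Set.range ![A *ᵥ x₀, A *ᵥ (A *ᵥ x₀)]) ≤
      LinearMap.range A.mulVecLin := by
    rw [Submodule.span_le]
    rintro z ⟨i, rfl⟩
    fin_cases i
    · exact ⟨x₀, rfl⟩
    · exact ⟨A *ᵥ x₀, rfl⟩
  have heq := Submodule.eq_of_le_of_finrank_le hle (by rw [h5]; exact hrk)
  have hy : A *ᵥ y ∈ Submodule.span F (Set.range ![A *ᵥ x₀, A *ᵥ (A *ᵥ x₀)]) := by
    rw [heq]
    exact ⟨y, rfl⟩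
  rw [Matrix.range_cons, Matrix.range_cons, Matrix.range_empty, Set.union_empty,
    Set.singleton_union, Submodule.mem_span_pair] at hy
  obtain ⟨a, b, hab⟩ := hy
  exact ⟨a, b, hab.symm⟩

theorem ss_of_jordan {K : Type} [Field K] [NumberField K] (hK : finrank ℚ K = 1)
    {Γ : Type} [Group Γ] (θ : GK K →* Γ) {N w : ℕ} (hw : 0 < w)
    {S : Set (HeightOneSpectrum (𝓞 K))} (hS : S.Finite) (P : HeightOneSpectrum (𝓞 K) → ℤ[X])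
    (hP : ∀ v ∉ S, (P v).Monic ∧
      ∀ z : ℂ, aeval z (P v) = 0 → ‖z‖ ^ 2 = (Ideal.absNorm v.asIdeal : ℝ) ^ w)
    (ρ : ∀ (ℓ : ℕ) [Fact ℓ.Prime], Γ →* Matrix (Fin N) (Fin N) ℚ_[ℓ])
    (hρ : ∀ (ℓ : ℕ) [Fact ℓ.Prime], Continuous ((ρ ℓ).comp θ))
    (J : ∀ (ℓ : ℕ) [Fact ℓ.Prime], Matrix (Fin N) (Fin N) ℚ_[ℓ])
    (hJ : ∀ (ℓ : ℕ) [Fact ℓ.Prime], (J ℓ)ᵀ = J ℓ ∨ (J ℓ)ᵀ = -J ℓ)
    (hdet : ∀ (ℓ : ℕ) [Fact ℓ.Prime], (J ℓ).det ≠ 0)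
    (χ : ∀ (ℓ : ℕ) [Fact ℓ.Prime], Γ → ℚ_[ℓ])
    (hχ : ∀ (ℓ : ℕ) [Fact ℓ.Prime] (g : Γ), (ρ ℓ g)ᵀ * J ℓ * ρ ℓ g = χ ℓ g • J ℓ)
    (hfrob : ∀ (ℓ : ℕ) [Fact ℓ.Prime], ∀ v ∉ S, (ℓ : 𝓞 K) ∉ v.asIdeal → ∀ σ : GK K,
      IsFrobenius v σ → (ρ ℓ (θ σ⁻¹)).charpoly = (P v).map (algebraMap ℤ ℚ_[ℓ]) ∧
      χ ℓ (θ σ⁻¹) = (Ideal.absNorm v.asIdeal : ℚ_[ℓ]) ^ w)
    (ℓ₀ : ℕ) [hℓ₀ : Fact ℓ₀.Prime] (hJ0 : (J ℓ₀)ᵀ = J ℓ₀) (g : GK K)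
    (h3 : (ρ ℓ₀ (θ g) - 1) ^ 3 = 0) (h2 : (ρ ℓ₀ (θ g) - 1) ^ 2 ≠ 0)
    (hrk : (ρ ℓ₀ (θ g) - 1).rank ≤ 2)
    (hspan : ∀ Δ : Subgroup (GK K), IsOpen (Δ : Set (GK K)) →
      Submodule.span ℚ_[ℓ₀] {x | ∃ σ ∈ Δ, ∃ y, x = ρ ℓ₀ (θ σ) *ᵥ ((ρ ℓ₀ (θ g) - 1) ^ 2 *ᵥ y)} = ⊤)
    (ℓ : ℕ) [hℓ : Fact ℓ.Prime] (U : Subgroup Γ) (hU : U.FiniteIndex) :
    SSu (endRep (ρ ℓ)) U := by
  obtain ⟨A, hA⟩ : ∃ A, A = ρ ℓ₀ (θ g) - 1 := ⟨_, rfl⟩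
  rw [← hA] at h3 h2 hrk
  simp only [← hA] at hspan
  have hg : ρ ℓ₀ (θ g) = 1 + A := by rw [hA]; abel
  have h3' : ∀ x, A *ᵥ (A *ᵥ (A *ᵥ x)) = 0 := by
    intro x
    rw [mulVec_mulVec, mulVec_mulVec]
    have : A * A * A = A ^ 3 := by noncomm_ring
    rw [this, h3, zero_mulVec]
  obtain ⟨x₀, hx₀⟩ : ∃ x₀, A *ᵥ (A *ᵥ x₀) ≠ 0 := by
    by_contra hcon
    push Not at hcon
    apply h2
    refine Matrix.mulVec_injective ?_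
    funext x
    rw [pow_two, ← mulVec_mulVec, hcon, zero_mulVec]
  have hs : ∀ x y, bt (J ℓ₀) (x + A *ᵥ x) (y + A *ᵥ y) = χ ℓ₀ (θ g) * bt (J ℓ₀) x y := by
    intro x y
    have h4 : ∀ x, x + A *ᵥ x = ρ ℓ₀ (θ g) *ᵥ x := by
      intro x
      rw [hg, add_mulVec, one_mulVec]
    rw [h4, h4]
    exact bt_sim (hχ ℓ₀ (θ g)) x y
  obtain ⟨s, u, v, hs0, hAu, huu, huv, hvv, hform⟩ := wedge_of_jordan hJ0 (hdet ℓ₀) hs h3' hx₀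
    (range_of_rank h3' hx₀ hrk)
  have hblk : Blk ((ρ ℓ₀).comp θ) (J ℓ₀) u v := by
    refine ⟨huu, huv, hvv, g, fun x => ?_⟩
    have h4 := hform x
    have h5 : x + A *ᵥ x = ρ ℓ₀ (θ g) *ᵥ x := by rw [hg, add_mulVec, one_mulVec]
    rw [h5] at h4
    exact h4
  have hAform : ∀ y, A *ᵥ y = bt (J ℓ₀) y v • u - bt (J ℓ₀) y u • v -
      (2⁻¹ * bt (J ℓ₀) v v * bt (J ℓ₀) y u) • u := by
    intro y
    have h4 := hform y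
    have h5 : A *ᵥ y = (y + A *ᵥ y) - y := by abel
    rw [h5, h4]
    abel
  have hvu : bt (J ℓ₀) v u = 0 := by rw [bt_swap_symm hJ0, huv]
  have hAu0 : A *ᵥ u = 0 := by rw [hAform, huu, huv]; simp
  have hAv : A *ᵥ v = bt (J ℓ₀) v v • u := by rw [hAform, hvu]; simp
  have hA2 : ∀ y, A ^ 2 *ᵥ y = (-(bt (J ℓ₀) y u * bt (J ℓ₀) v v)) • u := by
    intro y
    rw [pow_two, ← mulVec_mulVec, hAform y, mulVec_sub, mulVec_sub, mulVec_smul, mulVec_smul,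
      mulVec_smul, hAu0, hAv]
    module
  refine ss_of_blk hK θ hw hS P hP ρ hρ J hJ hdet χ hχ hfrob ℓ₀ u v hblk (fun Δ hΔ => ?_) ℓ U hU
  rw [eq_top_iff, ← hspan Δ hΔ, Submodule.span_le]
  rintro x ⟨σ, hσ, y, rfl⟩
  rw [hA2, mulVec_smul]
  exact Submodule.smul_mem _ _ (Submodule.subset_span ⟨σ, hσ, rfl⟩)

end Pool.Agent.L7h78.VC
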