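import Mathlib

/-!
# Vanishing cycles: linear algebra

`E J u v` is the endomorphism `x ↦ (x, v) u` for the bilinear form with matrix `J`.
-/

set_option autoImplicit false
set_option linter.unusedSectionVars false

open Matrix

namespace Pool.Agent.L7h78.VC

variable {F : Type} [Field F] {N : ℕ} (J : Matrix (Fin N) (Fin N) F)

/-- the form -/
def bt (x y : Fin N → F) : F := x ⬝ᵥ J *ᵥ y

/-- `x ↦ (x, v) u` -/
def E (u v : Fin N → F) : Matrix (Fin N) (Fin N) F := vecMulVec u (J *ᵥ v)

theorem E_mulVec (u v x : Fin N → F) : E J u v *ᵥ x = bt J x v • u := by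
  unfold E bt
  rw [vecMulVec_mulVec, dotProduct_comm]
  simp

theorem mul_E (X : Matrix (Fin N) (Fin N) F) (u v : Fin N → F) : X * E J u v = E J (X *ᵥ u) v := by
  unfold E
  rw [Matrix.mul_vecMulVec]

theorem E_mul (X : Matrix (Fin N) (Fin N) F) {c : F} (hX : Xᵀ * J + J * X = c • J)
    (u v : Fin N → F) : E J u v * X = c • E J u v - E J u (X *ᵥ v) := by
  unfold E
  rw [Matrix.vecMulVec_mul, ← Matrix.mulVec_transpose]
  have h1 : Xᵀ *ᵥ (J *ᵥ v) = c • (J *ᵥ v) - J *ᵥ (X *ᵥ v) := by
    rw [mulVec_mulVec, mulVec_mulVec, ← smul_mulVec, ← hX, add_mulVec, add_sub_cancel_right]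
  rw [h1, vecMulVec_sub, vecMulVec_smul]

theorem E_E (u v u' v' : Fin N → F) : E J u v * E J u' v' = bt J u' v • E J u v' := by
  rw [mul_E, E_mulVec]
  unfold E
  rw [smul_vecMulVec]

theorem E_add_left (u u' v : Fin N → F) : E J (u + u') v = E J u v + E J u' v := by
  unfold E; rw [add_vecMulVec]

theorem E_add_right (u v v' : Fin N → F) : E J u (v + v') = E J u v + E J u v' := by
  unfold E; rw [mulVec_add, vecMulVec_add]

theorem E_smul_left (c : F) (u v : Fin N → F) : E J (c • u) v = c • E J u v := by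
  unfold E; rw [smul_vecMulVec]

theorem E_smul_right (c : F) (u v : Fin N → F) : E J u (c • v) = c • E J u v := by
  unfold E; rw [mulVec_smul, vecMulVec_smul]

theorem bt_add_left (x x' y : Fin N → F) : bt J (x + x') y = bt J x y + bt J x' y := by
  unfold bt; rw [add_dotProduct]

theorem bt_add_right (x y y' : Fin N → F) : bt J x (y + y') = bt J x y + bt J x y' := by
  unfold bt; rw [mulVec_add, dotProduct_add]

theorem bt_sub_left (x x' y : Fin N → F) : bt J (x - x') y = bt J x y - bt J x' y := by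
  unfold bt; rw [sub_dotProduct]

theorem bt_sub_right (x y y' : Fin N → F) : bt J x (y - y') = bt J x y - bt J x y' := by
  unfold bt; rw [mulVec_sub, dotProduct_sub]

theorem bt_smul_left (c : F) (x y : Fin N → F) : bt J (c • x) y = c * bt J x y := by
  unfold bt; rw [smul_dotProduct, smul_eq_mul]

theorem bt_smul_right (c : F) (x y : Fin N → F) : bt J x (c • y) = c * bt J x y := by
  unfold bt; rw [mulVec_smul, dotProduct_smul, smul_eq_mul]

theorem bt_zero_left (y : Fin N → F) : bt J 0 y = 0 := by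
  unfold bt; rw [zero_dotProduct]

theorem bt_zero_right (x : Fin N → F) : bt J x 0 = 0 := by
  unfold bt; rw [mulVec_zero, dotProduct_zero]

variable {J}

theorem bt_swap_alt (hJ : Jᵀ = -J) (x y : Fin N → F) : bt J x y = - bt J y x := by
  unfold bt
  rw [dotProduct_mulVec, ← mulVec_transpose, hJ, neg_mulVec, neg_dotProduct, dotProduct_comm]

theorem bt_swap_symm (hJ : Jᵀ = J) (x y : Fin N → F) : bt J x y = bt J y x := by
  unfold bt
  rw [dotProduct_mulVec, ← mulVec_transpose, hJ, dotProduct_comm]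

theorem bt_self [CharZero F] (hJ : Jᵀ = -J) (x : Fin N → F) : bt J x x = 0 := by
  have h := bt_swap_alt hJ x x
  have h2 : (2 : F) * bt J x x = 0 := by linear_combination h
  exact (mul_eq_zero.1 h2).resolve_left two_ne_zero

/-- a vector orthogonal to everything is zero -/
theorem eq_zero_of_bt (hd : J.det ≠ 0) {x : Fin N → F} (h : ∀ y, bt J x y = 0) : x = 0 := by
  have h1 : Jᵀ *ᵥ x = 0 := by
    funext i
    have h2 := h (Pi.single i 1)
    unfold bt at h2
    rw [dotProduct_mulVec, ← mulVec_transpose, dotProduct_single_one] at h2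
    rw [h2]
    rfl
  have h3 : (Jᵀ).det ≠ 0 := by rwa [det_transpose]
  exact Matrix.eq_zero_of_mulVec_eq_zero h3 h1

/-! ### The alternating case -/

section alt

variable [CharZero F] (hJ : Jᵀ = -J) (𝔤 : Submodule F (Matrix (Fin N) (Fin N) F))
  (hlie : ∀ X ∈ 𝔤, ∀ Y ∈ 𝔤, X * Y - Y * X ∈ 𝔤)

include hJ hlie

theorem S_mem {u v : Fin N → F} (hu : E J u u ∈ 𝔤) (hv : E J v v ∈ 𝔤) (h : bt J u v ≠ 0) :
    E J u v + E J v u ∈ 𝔤 := by
  have h1 := hlie _ hu _ hv
  rw [E_E, E_E] at h1
  have h2 : bt J v u • E J u v - bt J u v • E J v u = (-bt J u v) • (E J u v + E J v u) := by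
    rw [bt_swap_alt hJ v u, smul_add, sub_eq_add_neg, ← neg_smul]
  rw [h2] at h1
  have h3 := 𝔤.smul_mem (-bt J u v)⁻¹ h1
  rwa [smul_smul, inv_mul_cancel₀ (neg_ne_zero.2 h), one_smul] at h3

omit hJ hlie in
theorem sq_add {u v : Fin N → F} (hu : E J u u ∈ 𝔤) (hv : E J v v ∈ 𝔤)
    (h : E J u v + E J v u ∈ 𝔤) (a b : F) : E J (a • u + b • v) (a • u + b • v) ∈ 𝔤 := by
  have h1 : E J (a • u + b • v) (a • u + b • v) =
      (a * a) • E J u u + (a * b) • (E J u v + E J v u) + (b * b) • E J v v := by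
    simp only [E_add_left, E_add_right, E_smul_left, E_smul_right, smul_smul, smul_add,
      mul_comm b a]
    abel
  rw [h1]
  exact 𝔤.add_mem (𝔤.add_mem (𝔤.smul_mem _ hu) (𝔤.smul_mem _ h)) (𝔤.smul_mem _ hv)

/-- projection to the orthogonal complement of a hyperbolic plane -/
theorem exists_proj {e f w : Fin N → F} (he : E J e e ∈ 𝔤) (hf : E J f f ∈ 𝔤)
    (hef : bt J e f ≠ 0) (hw : E J w w ∈ 𝔤) :
    ∃ a b : F, E J (w - a • e - b • f) (w - a • e - b • f) ∈ 𝔤 ∧
      bt J (w - a • e - b • f) e = 0 ∧ bt J (w - a • e - b • f) f = 0 := by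
  have hfe : bt J f e ≠ 0 := by
    rw [bt_swap_alt hJ]; exact neg_ne_zero.2 hef
  have hSef := S_mem hJ 𝔤 hlie he hf hef
  refine ⟨bt J w f / bt J e f, bt J w e / bt J f e, ?_, ?_, ?_⟩
  · have key : (bt J w e ≠ 0 ∨ bt J w f ≠ 0) → (E J w e + E J e w ∈ 𝔤 ∧ E J w f + E J f w ∈ 𝔤) := by
      intro h
      have hs : E J (e + f) (e + f) ∈ 𝔤 := by
        have := sq_add (J := J) 𝔤 he hf hSef 1 1
        rwa [one_smul, one_smul] at this
      have hsum : bt J w (e + f) ≠ 0 → (E J w e + E J e w) + (E J w f + E J f w) ∈ 𝔤 := by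
        intro h1
        have h2 := S_mem hJ 𝔤 hlie hw hs h1
        rw [E_add_left, E_add_right] at h2
        convert h2 using 1
        abel
      by_cases h1 : bt J w e = 0
      · have h2 : bt J w f ≠ 0 := h.resolve_left (fun h3 => h3 h1)
        have h3 := S_mem hJ 𝔤 hlie hw hf h2
        refine ⟨?_, h3⟩
        have h4 := hsum (by rw [bt_add_right, h1, zero_add]; exact h2)
        have h5 := 𝔤.sub_mem h4 h3
        rwa [add_sub_cancel_right] at h5
      · have h3 := S_mem hJ 𝔤 hlie hw he h1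
        refine ⟨h3, ?_⟩
        by_cases h2 : bt J w f = 0
        · have h4 := hsum (by rw [bt_add_right, h2, add_zero]; exact h1)
          have h5 := 𝔤.sub_mem h4 h3
          rwa [add_sub_cancel_left] at h5
        · exact S_mem hJ 𝔤 hlie hw hf h2
    by_cases h0 : bt J w e ≠ 0 ∨ bt J w f ≠ 0
    · obtain ⟨k1, k2⟩ := key h0
      generalize bt J w f / bt J e f = a
      generalize bt J w e / bt J f e = b
      have h1 : E J (w - a • e - b • f) (w - a • e - b • f) =
          E J w w - a • (E J w e + E J e w) - b • (E J w f + E J f w) + (a * a) • E J e e +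
            (a * b) • (E J e f + E J f e) + (b * b) • E J f f := by
        have e1 : w - a • e - b • f = w + (-a) • e + (-b) • f := by
          rw [neg_smul, neg_smul]; abel
        rw [e1]
        simp only [E_add_left, E_add_right, E_smul_left, E_smul_right]
        module
      rw [h1]
      exact 𝔤.add_mem (𝔤.add_mem (𝔤.add_mem (𝔤.sub_mem (𝔤.sub_mem hw (𝔤.smul_mem _ k1))
        (𝔤.smul_mem _ k2)) (𝔤.smul_mem _ he)) (𝔤.smul_mem _ hSef)) (𝔤.smul_mem _ hf)
    · push Not at h0
      rw [h0.1, h0.2, zero_div, zero_div, zero_smul, zero_smul, sub_zero, sub_zero]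
      exact hw
  · rw [bt_sub_left, bt_sub_left, bt_smul_left, bt_smul_left, bt_self hJ, mul_zero, sub_zero,
      div_mul_cancel₀ _ hfe, sub_self]
  · rw [bt_sub_left, bt_sub_left, bt_smul_left, bt_smul_left, bt_self hJ f, mul_zero, sub_zero,
      div_mul_cancel₀ _ hef, sub_self]

end alt

/-- a family of `n` pairwise orthogonal hyperbolic planes, with squares in `𝔤` -/
structure Fam (J : Matrix (Fin N) (Fin N) F) (𝔤 : Submodule F (Matrix (Fin N) (Fin N) F)) (n : ℕ)
    (e f : Fin n → Fin N → F) : Prop where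
  he : ∀ i, E J (e i) (e i) ∈ 𝔤
  hf : ∀ i, E J (f i) (f i) ∈ 𝔤
  ne : ∀ i, bt J (e i) (f i) ≠ 0
  ee : ∀ i j, i ≠ j → bt J (e i) (e j) = 0
  ef : ∀ i j, i ≠ j → bt J (e i) (f j) = 0
  fe : ∀ i j, i ≠ j → bt J (f i) (e j) = 0
  ff : ∀ i j, i ≠ j → bt J (f i) (f j) = 0

section fam

variable [CharZero F] (hJ : Jᵀ = -J) (𝔤 : Submodule F (Matrix (Fin N) (Fin N) F))
  (hlie : ∀ X ∈ 𝔤, ∀ Y ∈ 𝔤, X * Y - Y * X ∈ 𝔤)

include hJ

theorem Fam.indep {n : ℕ} {e f : Fin n → Fin N → F} (h : Fam J 𝔤 n e f) :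
    LinearIndependent F (fun q : Fin 2 × Fin n => if q.1 = 0 then e q.2 else f q.2) := by
  rw [Fintype.linearIndependent_iff]
  intro g hg
  have key : ∀ y : Fin N → F, ∑ j, (g (0, j) * bt J (e j) y + g (1, j) * bt J (f j) y) = 0 := by
    intro y
    have h1 := congrArg (fun x => bt J x y) hg
    simp only [bt_zero_left] at h1
    rw [← h1, Fintype.sum_prod_type_right]
    simp only [Fin.sum_univ_two]
    have h2 : ∀ (s : Finset (Fin n)) (v : Fin n → Fin N → F),
        bt J (∑ j ∈ s, v j) y = ∑ j ∈ s, bt J (v j) y := by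
      intro s v
      unfold bt
      rw [sum_dotProduct]
    rw [h2]
    refine Finset.sum_congr rfl fun j _ => ?_
    simp [bt_add_left, bt_smul_left]
  have h1 : ∀ k, g (1, k) = 0 := by
    intro k
    have h2 := key (e k)
    rw [Finset.sum_eq_single k (fun j _ hj => by rw [h.ee j k hj, h.fe j k hj]; ring)
      (fun hk => absurd (Finset.mem_univ k) hk), bt_self hJ, mul_zero, zero_add] at h2
    have h3 : bt J (f k) (e k) ≠ 0 := by
      rw [bt_swap_alt hJ]; exact neg_ne_zero.2 (h.ne k)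
    exact (mul_eq_zero.1 h2).resolve_right h3
  have h0 : ∀ k, g (0, k) = 0 := by
    intro k
    have h2 := key (f k)
    rw [Finset.sum_eq_single k (fun j _ hj => by rw [h.ef j k hj, h.ff j k hj]; ring)
      (fun hk => absurd (Finset.mem_univ k) hk), bt_self hJ, mul_zero, add_zero] at h2
    exact (mul_eq_zero.1 h2).resolve_right (h.ne k)
  rintro ⟨i, k⟩
  fin_cases i
  · exact h0 k
  · exact h1 k

theorem Fam.le {n : ℕ} {e f : Fin n → Fin N → F} (h : Fam J 𝔤 n e f) : n ≤ N := by
  have h1 := (h.indep hJ).fintype_card_le_finrank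
  rw [Fintype.card_prod, Fintype.card_fin, Fintype.card_fin, Module.finrank_fin_fun] at h1
  omega

include hlie

theorem Fam.proj {n : ℕ} {e f : Fin n → Fin N → F} (h : Fam J 𝔤 n e f) {w : Fin N → F}
    (hw : E J w w ∈ 𝔤) (s : Finset (Fin n)) : ∃ w', E J w' w' ∈ 𝔤 ∧
      w - w' ∈ Submodule.span F (Set.range e ∪ Set.range f) ∧
      ∀ i ∈ s, bt J w' (e i) = 0 ∧ bt J w' (f i) = 0 := by
  classical
  induction s using Finset.induction_on with
  | empty => exact ⟨w, hw, by simp, by simp⟩
  | insert j s hj ih =>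
    obtain ⟨w', h1, h2, h3⟩ := ih
    obtain ⟨a, b, h4, h5, h6⟩ := exists_proj hJ 𝔤 hlie (h.he j) (h.hf j) (h.ne j) h1
    refine ⟨_, h4, ?_, ?_⟩
    · have h7 : w - (w' - a • e j - b • f j) = (w - w') + a • e j + b • f j := by abel
      rw [h7]
      refine Submodule.add_mem _ (Submodule.add_mem _ h2 (Submodule.smul_mem _ _
        (Submodule.subset_span (Or.inl ⟨j, rfl⟩)))) (Submodule.smul_mem _ _
        (Submodule.subset_span (Or.inr ⟨j, rfl⟩)))
    · intro i hi
      rcases Finset.mem_insert.1 hi with rfl | hi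
      · exact ⟨h5, h6⟩
      · have hne : j ≠ i := fun h => hj (h ▸ hi)
        obtain ⟨h8, h9⟩ := h3 i hi
        constructor
        · rw [bt_sub_left, bt_sub_left, bt_smul_left, bt_smul_left, h8, h.ee j i hne,
            h.fe j i hne]
          ring
        · rw [bt_sub_left, bt_sub_left, bt_smul_left, bt_smul_left, h9, h.ef j i hne,
            h.ff j i hne]
          ring

/-- a family whose span is not everything can be extended -/
theorem Fam.extend (hd : J.det ≠ 0)
    (hA : Submodule.span F {u : Fin N → F | E J u u ∈ 𝔤} = ⊤) {n : ℕ}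
    {e f : Fin n → Fin N → F} (h : Fam J 𝔤 n e f)
    (hs : Submodule.span F (Set.range e ∪ Set.range f) ≠ ⊤) :
    ∃ e' f' : Fin (n + 1) → Fin N → F, Fam J 𝔤 (n + 1) e' f' := by
  obtain ⟨w, hw, hwS⟩ : ∃ w, E J w w ∈ 𝔤 ∧ w ∉ Submodule.span F (Set.range e ∪ Set.range f) := by
    by_contra hcon
    push Not at hcon
    apply hs
    rw [eq_top_iff, ← hA, Submodule.span_le]
    exact fun u hu => hcon u hu
  obtain ⟨w', h1, h2, h3⟩ := h.proj hJ 𝔤 hlie hw Finset.univ
  have hw0 : w' ≠ 0 := by
    intro h0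
    rw [h0, sub_zero] at h2
    exact hwS h2
  have hort : ∀ x ∈ Submodule.span F (Set.range e ∪ Set.range f), bt J w' x = 0 := by
    intro x hx
    induction hx using Submodule.span_induction with
    | mem x hx =>
      rcases hx with ⟨i, rfl⟩ | ⟨i, rfl⟩
      · exact (h3 i (Finset.mem_univ i)).1
      · exact (h3 i (Finset.mem_univ i)).2
    | zero => exact bt_zero_right _ _
    | add x y _ _ hx hy => rw [bt_add_right, hx, hy, add_zero]
    | smul c x _ hx => rw [bt_smul_right, hx, mul_zero]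
  obtain ⟨v, hv, hwv⟩ : ∃ v, E J v v ∈ 𝔤 ∧ bt J w' v ≠ 0 := by
    by_contra hcon
    push Not at hcon
    apply hw0
    refine eq_zero_of_bt hd fun y => ?_
    have hy : y ∈ Submodule.span F {u : Fin N → F | E J u u ∈ 𝔤} := by rw [hA]; trivial
    induction hy using Submodule.span_induction with
    | mem x hx => exact hcon x hx
    | zero => exact bt_zero_right _ _
    | add x y _ _ hx hy => rw [bt_add_right, hx, hy, add_zero]
    | smul c x _ hx => rw [bt_smul_right, hx, mul_zero]
  obtain ⟨v', g1, g2, g3⟩ := h.proj hJ 𝔤 hlie hv Finset.univ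
  have hwv' : bt J w' v' ≠ 0 := by
    have h4 := hort _ g2
    rw [bt_sub_right] at h4
    rw [← sub_eq_zero.1 h4]
    exact hwv
  refine ⟨Fin.cons w' e, Fin.cons v' f, ⟨?_, ?_, ?_, ?_, ?_, ?_, ?_⟩⟩
  · intro i
    refine Fin.cases ?_ (fun i => ?_) i
    · simpa using h1
    · simpa using h.he i
  · intro i
    refine Fin.cases ?_ (fun i => ?_) i
    · simpa using g1
    · simpa using h.hf i
  · intro i
    refine Fin.cases ?_ (fun i => ?_) i
    · simpa using hwv'
    · simpa using h.ne i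
  · intro i j
    refine Fin.cases ?_ (fun i => ?_) i <;> refine Fin.cases ?_ (fun j => ?_) j
    · intro hij; exact absurd rfl hij
    · intro _; simpa using (h3 j (Finset.mem_univ j)).1
    · intro _
      rw [bt_swap_alt hJ]
      simpa using (h3 i (Finset.mem_univ i)).1
    · intro hij
      simpa using h.ee i j (fun h => hij (by rw [h]))
  · intro i j
    refine Fin.cases ?_ (fun i => ?_) i <;> refine Fin.cases ?_ (fun j => ?_) j
    · intro hij; exact absurd rfl hij
    · intro _; simpa using (h3 j (Finset.mem_univ j)).2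
    · intro _
      rw [bt_swap_alt hJ]
      simpa using (g3 i (Finset.mem_univ i)).1
    · intro hij
      simpa using h.ef i j (fun h => hij (by rw [h]))
  · intro i j
    refine Fin.cases ?_ (fun i => ?_) i <;> refine Fin.cases ?_ (fun j => ?_) j
    · intro hij; exact absurd rfl hij
    · intro _; simpa using (g3 j (Finset.mem_univ j)).1
    · intro _
      rw [bt_swap_alt hJ]
      simpa using (h3 i (Finset.mem_univ i)).2
    · intro hij
      simpa using h.fe i j (fun h => hij (by rw [h]))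
  · intro i j
    refine Fin.cases ?_ (fun i => ?_) i <;> refine Fin.cases ?_ (fun j => ?_) j
    · intro hij; exact absurd rfl hij
    · intro _; simpa using (g3 j (Finset.mem_univ j)).2
    · intro _
      rw [bt_swap_alt hJ]
      simpa using (g3 i (Finset.mem_univ i)).2
    · intro hij
      simpa using h.ff i j (fun h => hij (by rw [h]))

/-- a family which spans -/
theorem exists_fam (hd : J.det ≠ 0)
    (hA : Submodule.span F {u : Fin N → F | E J u u ∈ 𝔤} = ⊤) :
    ∃ (n : ℕ) (e f : Fin n → Fin N → F), Fam J 𝔤 n e f ∧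
      Submodule.span F (Set.range e ∪ Set.range f) = ⊤ := by
  classical
  have h0 : ∃ e f : Fin 0 → Fin N → F, Fam J 𝔤 0 e f :=
    ⟨fun i => i.elim0, fun i => i.elim0, ⟨fun i => i.elim0, fun i => i.elim0, fun i => i.elim0,
      fun i => i.elim0, fun i => i.elim0, fun i => i.elim0, fun i => i.elim0⟩⟩
  let P : ℕ → Prop := fun n => ∃ e f : Fin n → Fin N → F, Fam J 𝔤 n e f
  have hP : P (Nat.findGreatest P N) := Nat.findGreatest_spec (m := 0) (Nat.zero_le N) h0
  obtain ⟨e, f, hef⟩ := hP
  refine ⟨_, e, f, hef, ?_⟩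
  by_contra hs
  obtain ⟨e', f', h'⟩ := hef.extend hJ 𝔤 hlie hd hA hs
  have h1 := h'.le hJ 𝔤
  have h2 : Nat.findGreatest P N + 1 ≤ Nat.findGreatest P N :=
    Nat.le_findGreatest h1 ⟨e', f', h'⟩
  omega

end fam

end Pool.Agent.L7h78.VC
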