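import Pool.Agent.L7h78.VC.La

/-!
# Vanishing cycles: the symmetric case
-/

set_option autoImplicit false
set_option linter.unusedSectionVars false

open Matrix

namespace Pool.Agent.L7h78.VC

variable {F : Type} [Field F] [CharZero F] {N : ℕ} {J : Matrix (Fin N) (Fin N) F}

/-- `x ↦ (x, v) u - (x, u) v` -/
def La (J : Matrix (Fin N) (Fin N) F) (u v : Fin N → F) : Matrix (Fin N) (Fin N) F :=
  E J u v - E J v u

theorem La_add_left (u u' v : Fin N → F) : La J (u + u') v = La J u v + La J u' v := by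
  unfold La; rw [E_add_left, E_add_right]; abel

theorem La_smul_left (c : F) (u v : Fin N → F) : La J (c • u) v = c • La J u v := by
  unfold La; rw [E_smul_left, E_smul_right, smul_sub]

theorem La_add_right (u v v' : Fin N → F) : La J u (v + v') = La J u v + La J u v' := by
  unfold La; rw [E_add_left, E_add_right]; abel

theorem La_smul_right (c : F) (u v : Fin N → F) : La J u (c • v) = c • La J u v := by
  unfold La; rw [E_smul_left, E_smul_right, smul_sub]

theorem La_swap (u v : Fin N → F) : La J v u = -La J u v := by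
  unfold La; abel

theorem La_self (u : Fin N → F) : La J u u = 0 := by
  unfold La; rw [sub_self]

/-- bracket with a similitude of the Lie algebra -/
theorem bracket_La {X : Matrix (Fin N) (Fin N) F} {c : F} (hX : Xᵀ * J + J * X = c • J)
    (u v : Fin N → F) :
    X * La J u v - La J u v * X = La J (X *ᵥ u) v + La J u (X *ᵥ v) - c • La J u v := by
  unfold La
  rw [mul_sub, sub_mul, mul_E, mul_E, E_mul J X hX, E_mul J X hX]
  module

theorem La_La (hJ : Jᵀ = J) {δ v v' : Fin N → F} (h : bt J v δ = 0) (h' : bt J v' δ = 0) :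
    La J v δ * La J v' δ - La J v' δ * La J v δ = (-bt J δ δ) • La J v v' := by
  unfold La
  have h1 : bt J δ v = 0 := by rw [bt_swap_symm hJ, h]
  have h1' : bt J δ v' = 0 := by rw [bt_swap_symm hJ, h']
  simp only [mul_sub, sub_mul, E_E, h, h', h1, h1', bt_swap_symm hJ v' v]
  module

section

variable (hJ : Jᵀ = J) (𝔤 : Submodule F (Matrix (Fin N) (Fin N) F))
  (hlie : ∀ X ∈ 𝔤, ∀ Y ∈ 𝔤, X * Y - Y * X ∈ 𝔤)

/-- the vectors `v` with `v ∧ δ` in `𝔤` -/
def W (J : Matrix (Fin N) (Fin N) F) (𝔤 : Submodule F (Matrix (Fin N) (Fin N) F))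
    (δ : Fin N → F) : Submodule F (Fin N → F) where
  carrier := {v | La J v δ ∈ 𝔤}
  add_mem' := by
    intro a b ha hb
    simp only [Set.mem_ofPred_eq] at ha hb ⊢
    rw [La_add_left]
    exact 𝔤.add_mem ha hb
  zero_mem' := by
    simp only [Set.mem_ofPred_eq]
    rw [← zero_smul F (0 : Fin N → F), La_smul_left, zero_smul]
    exact 𝔤.zero_mem
  smul_mem' := by
    intro c a ha
    simp only [Set.mem_ofPred_eq] at ha ⊢
    rw [La_smul_left]
    exact 𝔤.smul_mem _ ha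

theorem mem_W (δ v : Fin N → F) : v ∈ W J 𝔤 δ ↔ La J v δ ∈ 𝔤 := Iff.rfl

theorem self_mem_W (δ : Fin N → F) : δ ∈ W J 𝔤 δ := by
  rw [mem_W, La_self]; exact 𝔤.zero_mem

include hJ hlie

theorem La_mem {δ : Fin N → F} (hδ : bt J δ δ ≠ 0) {v v' : Fin N → F} (hv : v ∈ W J 𝔤 δ)
    (hv' : v' ∈ W J 𝔤 δ) : La J v v' ∈ 𝔤 := by
  have key : ∀ v ∈ W J 𝔤 δ, ∃ (a : F) (v₁ : Fin N → F), v = v₁ + a • δ ∧ v₁ ∈ W J 𝔤 δ ∧
      bt J v₁ δ = 0 := by
    intro v hv
    refine ⟨bt J v δ / bt J δ δ, v - (bt J v δ / bt J δ δ) • δ, by abel,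
      Submodule.sub_mem _ hv (Submodule.smul_mem _ _ (self_mem_W 𝔤 δ)), ?_⟩
    rw [bt_sub_left, bt_smul_left, div_mul_cancel₀ _ hδ, sub_self]
  obtain ⟨a, v₁, rfl, h1, h2⟩ := key v hv
  obtain ⟨a', v₁', rfl, h1', h2'⟩ := key v' hv'
  have h3 : La J v₁ v₁' ∈ 𝔤 := by
    have h4 := hlie _ h1 _ h1'
    rw [La_La hJ h2 h2'] at h4
    have h5 := 𝔤.smul_mem (-bt J δ δ)⁻¹ h4
    rwa [smul_smul, inv_mul_cancel₀ (neg_ne_zero.2 hδ), one_smul] at h5
  have h4 : La J (v₁ + a • δ) (v₁' + a' • δ) =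
      La J v₁ v₁' + a' • La J v₁ δ - a • La J v₁' δ := by
    rw [La_add_left, La_add_right, La_add_right, La_smul_left, La_smul_right, La_smul_left,
      La_smul_right, La_self, La_swap v₁' δ]
    module
  rw [h4]
  exact 𝔤.sub_mem (𝔤.add_mem h3 (𝔤.smul_mem _ h1)) (𝔤.smul_mem _ h1')

theorem W_stable {δ : Fin N → F} (hδ : bt J δ δ ≠ 0)
    (hmul : ∀ X ∈ 𝔤, ∃ c : F, Xᵀ * J + J * X = c • J) (hδX : ∀ X ∈ 𝔤, La J (X *ᵥ δ) δ ∈ 𝔤)
    {X : Matrix (Fin N) (Fin N) F} (hX : X ∈ 𝔤) {v : Fin N → F} (hv : v ∈ W J 𝔤 δ) :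
    X *ᵥ v ∈ W J 𝔤 δ := by
  obtain ⟨c, hc⟩ := hmul X hX
  have h1 := hlie _ hX _ hv
  rw [bracket_La hc] at h1
  have h2 : La J v (X *ᵥ δ) ∈ 𝔤 := La_mem hJ 𝔤 hlie hδ hv (hδX X hX)
  have h3 : La J (X *ᵥ v) δ = (La J (X *ᵥ v) δ + La J v (X *ᵥ δ) - c • La J v δ) -
      La J v (X *ᵥ δ) + c • La J v δ := by abel
  rw [mem_W, h3]
  exact 𝔤.add_mem (𝔤.sub_mem h1 h2) (𝔤.smul_mem _ hv)

theorem full_of_top (hd : J.det ≠ 0) {δ : Fin N → F} (hδ : bt J δ δ ≠ 0) (hW : W J 𝔤 δ = ⊤)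
    {X : Matrix (Fin N) (Fin N) F} (hX : Xᵀ * J + J * X = 0) : X ∈ 𝔤 := by
  have hU : IsUnit J.det := isUnit_iff_ne_zero.2 hd
  set h : Fin N → Fin N → F := fun i => J⁻¹ *ᵥ Pi.single i 1 with hh
  have hJh : ∀ i, J *ᵥ h i = Pi.single i 1 := by
    intro i
    rw [hh, mulVec_mulVec, mul_nonsing_inv _ hU, one_mulVec]
  set K := J * X with hK
  have hKt : Kᵀ = -K := by
    rw [hK, transpose_mul, hJ]
    exact eq_neg_of_add_eq_zero_left hX
  have hsum : ∑ i, ∑ j, K i j • E J (h i) (h j) = X := by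
    have h1 : ∀ i j, E J (h i) (h j) = J⁻¹ * Matrix.single i j (1 : F) := by
      intro i j
      unfold E
      rw [hJh, hh, ← mul_vecMulVec, single_eq_single_vecMulVec_single]
    simp only [h1]
    have h2 : ∀ i j, K i j • (J⁻¹ * Matrix.single i j (1 : F)) =
        J⁻¹ * Matrix.single i j (K i j) := by
      intro i j
      rw [← mul_smul_comm, smul_single, smul_eq_mul, mul_one]
    simp only [h2, ← Finset.mul_sum]
    rw [← matrix_eq_sum_single, hK, ← mul_assoc, nonsing_inv_mul _ hU, one_mul]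
  have h3 : (2 : F) • X = ∑ i, ∑ j, K i j • La J (h i) (h j) := by
    have h4 : ∑ i, ∑ j, K i j • E J (h j) (h i) = -X := by
      rw [Finset.sum_comm]
      conv_rhs => rw [← hsum]
      rw [← Finset.sum_neg_distrib]
      refine Finset.sum_congr rfl fun i _ => ?_
      rw [← Finset.sum_neg_distrib]
      refine Finset.sum_congr rfl fun j _ => ?_
      have h5 : K j i = -K i j := congrFun (congrFun hKt i) j
      rw [h5, neg_smul]
    simp only [La, smul_sub, Finset.sum_sub_distrib]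
    rw [hsum, h4, sub_neg_eq_add, two_smul]
  have h6 : (2 : F) • X ∈ 𝔤 := by
    rw [h3]
    refine 𝔤.sum_mem fun i _ => 𝔤.sum_mem fun j _ => 𝔤.smul_mem _ ?_
    refine La_mem hJ 𝔤 hlie hδ ?_ ?_
    · rw [hW]; trivial
    · rw [hW]; trivial
  have h7 := 𝔤.smul_mem (2 : F)⁻¹ h6
  rwa [smul_smul, inv_mul_cancel₀ two_ne_zero, one_smul] at h7

end

/-- a similitude `1 + t (x, δ) δ` of a space of dimension at least two is a reflection -/
theorem refl_of_sim (hJ : Jᵀ = J) (hd : J.det ≠ 0) (hN : 2 ≤ N) {δ : Fin N → F} (hδ : δ ≠ 0)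
    {t c : F} (hs : (1 + t • E J δ δ)ᵀ * J * (1 + t • E J δ δ) = c • J) :
    t * (2 + t * bt J δ δ) = 0 := by
  obtain ⟨q, hq⟩ : ∃ q : Fin N → F, q = J *ᵥ δ := ⟨_, rfl⟩
  have h1 : (E J δ δ)ᵀ * J = vecMulVec q q := by
    unfold E
    rw [transpose_vecMulVec, vecMulVec_mul, ← mulVec_transpose, hJ, hq]
  have h2 : J * E J δ δ = vecMulVec q q := by
    unfold E
    rw [mul_vecMulVec, hq]
  have h4 : vecMulVec q q * E J δ δ = bt J δ δ • vecMulVec q q := by
    unfold E bt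
    rw [vecMulVec_mul_vecMulVec, vecMulVec_smul, ← hq, dotProduct_comm]
  have h3 : (1 + t • E J δ δ)ᵀ * J * (1 + t • E J δ δ) =
      J + (t * (2 + t * bt J δ δ)) • vecMulVec q q := by
    rw [transpose_add, transpose_one, transpose_smul, add_mul, add_mul, mul_add, mul_add, one_mul,
      mul_one, mul_one, smul_mul_assoc, h1, mul_smul_comm, h2, smul_mul_assoc, mul_smul_comm, h4]
    module
  rw [h3] at hs
  obtain ⟨k, hk⟩ : ∃ k, k = t * (2 + t * bt J δ δ) := ⟨_, rfl⟩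
  rw [← hk] at hs ⊢
  have hJi : ∀ x : Fin N → F, J *ᵥ x = 0 → x = 0 := fun x hx =>
    Matrix.eq_zero_of_mulVec_eq_zero hd hx
  have hq0 : q ≠ 0 := by
    intro h
    rw [h] at hq
    exact hδ (hJi δ hq.symm)
  obtain ⟨x, hx0, hx⟩ : ∃ x : Fin N → F, x ≠ 0 ∧ q ⬝ᵥ x = 0 := by
    have h01 : (⟨0, by omega⟩ : Fin N) ≠ ⟨1, by omega⟩ := by
      intro h; exact absurd (Fin.mk.inj h) (by norm_num)
    obtain ⟨i, hi⟩ : ∃ i : Fin N, i = ⟨0, by omega⟩ := ⟨_, rfl⟩
    obtain ⟨j, hj⟩ : ∃ j : Fin N, j = ⟨1, by omega⟩ := ⟨_, rfl⟩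
    have hij : i ≠ j := by rw [hi, hj]; exact h01
    by_cases h0 : q i = 0
    · refine ⟨Pi.single i 1, ?_, by rw [dotProduct_single_one, h0]⟩
      intro h
      have := congrFun h i
      rw [Pi.single_eq_same] at this
      exact one_ne_zero this
    · refine ⟨q j • Pi.single i 1 - q i • Pi.single j 1, ?_, ?_⟩
      · intro h
        have := congrFun h j
        simp [hij.symm] at this
        exact h0 this
      · rw [dotProduct_sub, dotProduct_smul, dotProduct_smul, dotProduct_single_one,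
          dotProduct_single_one, smul_eq_mul, smul_eq_mul]
        ring
  have h5 := congrArg (fun M => M *ᵥ x) hs
  simp only [add_mulVec, smul_mulVec, vecMulVec_mulVec, hx] at h5
  have h6 : (c - 1) • (J *ᵥ x) = 0 := by
    rw [sub_smul, one_smul, ← h5]
    simp
  have hc : c = 1 := by
    rcases smul_eq_zero.1 h6 with h7 | h7
    · exact sub_eq_zero.1 h7
    · exact absurd (hJi x h7) hx0
  rw [hc, one_smul, add_eq_left] at hs
  rcases smul_eq_zero.1 hs with h7 | h7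
  · exact h7
  · exfalso
    obtain ⟨i, hi⟩ := Function.ne_iff.1 hq0
    have h8 := congrFun (congrFun h7 i) i
    rw [vecMulVec_apply] at h8
    exact hi (mul_self_eq_zero.1 h8)

/-- conjugation with a reflection -/
theorem conj_refl {δ : Fin N → F} {t c : F} {X : Matrix (Fin N) (Fin N) F} (hJ : Jᵀ = J)
    (hX : Xᵀ * J + J * X = c • J) (ht : t * bt J δ δ = -2) :
    (1 + t • E J δ δ) * X * (1 + t • E J δ δ) = X + t • La J (X *ᵥ δ) δ := by
  have h1 : E J δ δ * X * E J δ δ = ((c / 2) * bt J δ δ) • E J δ δ := by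
    rw [E_mul J X hX, sub_mul, smul_mul_assoc, E_E, E_E]
    have h2 : bt J δ (X *ᵥ δ) = (c / 2) * bt J δ δ := by
      have h3 : bt J δ (X *ᵥ δ) + bt J (X *ᵥ δ) δ = c * bt J δ δ := by
        have h4 := congrArg (fun M => δ ⬝ᵥ M *ᵥ δ) hX
        simp only [add_mulVec, dotProduct_add, smul_mulVec, dotProduct_smul, smul_eq_mul,
          ← mulVec_mulVec] at h4
        unfold bt
        rw [← h4, add_comm]
        congr 1
        rw [dotProduct_mulVec δ Xᵀ, vecMul_transpose]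
      rw [bt_swap_symm hJ (X *ᵥ δ) δ] at h3
      linear_combination h3 / 2
    rw [h2, smul_smul, ← sub_smul]
    congr 1
    ring
  have h5 : E J δ δ * X = c • E J δ δ - E J δ (X *ᵥ δ) := E_mul J X hX δ δ
  have h6 : X * E J δ δ = E J (X *ᵥ δ) δ := mul_E J X δ δ
  rw [add_mul, add_mul, mul_add, mul_add, one_mul, mul_one, mul_one, mul_smul_comm, smul_mul_assoc,
    smul_mul_assoc, mul_smul_comm, h1, h5, h6]
  have h7 : t • t • (c / 2 * bt J δ δ) • E J δ δ = (-(t * c)) • E J δ δ := by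
    rw [smul_smul, smul_smul]
    congr 1
    linear_combination (t * c / 2) * ht
  rw [h7]
  unfold La
  module

end Pool.Agent.L7h78.VC
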