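import Pool.Agent.Y708.ZO.Tan
import Pool.Agent.Y497.ZO.LogPow
import Pool.Agent.Y710.ZS.Tans
import Pool.Agent.L7h78.VC.Cp
import Pool.Agent.L7h78.VC.Sy

/-!
# Vanishing cycles: tangent vectors of the `ℓ`-adic image
-/

set_option autoImplicit false
set_option linter.unusedSectionVars false

open Matrix Polynomial Filter Topology

namespace Pool.Agent.L7h78.VC

open Pool.Agent.Y142.ZO (IsTangent)
open Pool.Agent.Y142.ZS (Sim)
open Pool.Agent.Y708.ZO (tan mem_tan tangent_conj tangent_lie)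

variable {ℓ : ℕ} [hℓ : Fact ℓ.Prime] {N : ℕ} {G : Type} [Group G]

/-- `δ` is a vanishing cycle: some element acts by the formula of Picard and Lefschetz -/
def Van (ρ : G →* Matrix (Fin N) (Fin N) ℚ_[ℓ]) (J : Matrix (Fin N) (Fin N) ℚ_[ℓ])
    (δ : Fin N → ℚ_[ℓ]) : Prop :=
  ∃ (g : G) (t : ℚ_[ℓ]), t ≠ 0 ∧ ∀ x, ρ g *ᵥ x = x + (t * (x ⬝ᵥ J *ᵥ δ)) • δ

theorem Van.eq {ρ : G →* Matrix (Fin N) (Fin N) ℚ_[ℓ]} {J : Matrix (Fin N) (Fin N) ℚ_[ℓ]}
    {δ : Fin N → ℚ_[ℓ]} (h : Van ρ J δ) :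
    ∃ (g : G) (t : ℚ_[ℓ]), t ≠ 0 ∧ ρ g = 1 + t • E J δ δ := by
  obtain ⟨g, t, ht, h1⟩ := h
  refine ⟨g, t, ht, Matrix.mulVec_injective ?_⟩
  funext x
  rw [h1, add_mulVec, one_mulVec, smul_mulVec, E_mulVec, smul_smul]
  rfl

/-- the transvections give tangent vectors -/
theorem tangent_of_van {ρ : G →* Matrix (Fin N) (Fin N) ℚ_[ℓ]}
    {J : Matrix (Fin N) (Fin N) ℚ_[ℓ]} (hJ : Jᵀ = -J) {δ : Fin N → ℚ_[ℓ]} (h : Van ρ J δ) :
    E J δ δ ∈ tan ρ := by
  obtain ⟨g, t, ht, hg⟩ := h.eq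
  have hsq : E J δ δ * E J δ δ = 0 := by
    rw [E_E, bt_self hJ, zero_smul]
  have hpow : ∀ m : ℕ, ρ (g ^ m) = 1 + ((m : ℚ_[ℓ]) * t) • E J δ δ := by
    intro m
    induction m with
    | zero => rw [pow_zero, map_one, Nat.cast_zero, zero_mul, zero_smul, add_zero]
    | succ m ih =>
      rw [pow_succ, map_mul, ih, hg, add_mul, one_mul, mul_add, mul_one, smul_mul_assoc,
        mul_smul_comm, hsq, smul_zero, smul_zero, add_zero, Nat.cast_succ]
      module
  have h1 : t • E J δ δ ∈ tan ρ := by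
    rw [mem_tan]
    refine ⟨fun n => g ^ (ℓ ^ n), ?_⟩
    refine tendsto_const_nhds.congr fun n => ?_
    rw [hpow, add_sub_cancel_left, smul_smul, Nat.cast_pow, ← mul_assoc,
      inv_mul_cancel₀ (pow_ne_zero _ (Pool.Agent.Y708.ZO.ell_ne)), one_mul]
  have h2 := (tan ρ).smul_mem t⁻¹ h1
  rwa [smul_smul, inv_mul_cancel₀ ht, one_smul] at h2

/-- **the symmetric case**: the Lie algebra of the image is full -/
theorem full_of_van {G : Type} [Group G] [TopologicalSpace G] [IsTopologicalGroup G]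
    {ρ : G →* Matrix (Fin N) (Fin N) ℚ_[ℓ]} (hρ : Continuous ρ)
    {J : Matrix (Fin N) (Fin N) ℚ_[ℓ]} (hJ : Jᵀ = J) (hd : J.det ≠ 0)
    (hI : ∀ g, ∃ c, Sim J (ρ g) c) {δ : Fin N → ℚ_[ℓ]} (h : Van ρ J δ)
    (hspan : ∀ Δ : Subgroup G, IsOpen (Δ : Set G) →
      Submodule.span ℚ_[ℓ] {x | ∃ σ ∈ Δ, x = ρ σ *ᵥ δ} = ⊤)
    {X : Matrix (Fin N) (Fin N) ℚ_[ℓ]} (hX : Xᵀ * J + J * X = 0) : IsTangent ℓ ρ X := by
  rcases Nat.lt_or_ge N 2 with hN | hN
  · have h0 : X = 0 := by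
      ext i j
      have hij : i = j := by
        apply Fin.ext
        have := i.2
        have := j.2
        omega
      subst hij
      have h1 := congrFun (congrFun hX i) i
      have hall : ∀ k : Fin N, k = i := by
        intro k
        apply Fin.ext
        have := i.2
        have := k.2
        omega
      have hJi : J i i ≠ 0 := by
        intro h2
        apply hd
        refine Matrix.det_eq_zero_of_row_eq_zero i fun k => ?_
        rw [hall k, h2]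
      rw [Matrix.add_apply, Matrix.mul_apply, Matrix.mul_apply, Matrix.zero_apply,
        Finset.sum_eq_single i (fun k _ hk => absurd (hall k) hk)
          (fun hk => absurd (Finset.mem_univ i) hk),
        Finset.sum_eq_single i (fun k _ hk => absurd (hall k) hk)
          (fun hk => absurd (Finset.mem_univ i) hk), transpose_apply] at h1
      have h3 : (2 : ℚ_[ℓ]) * (J i i * X i i) = 0 := by linear_combination h1
      rw [Matrix.zero_apply]
      exact (mul_eq_zero.1 ((mul_eq_zero.1 h3).resolve_left two_ne_zero)).resolve_left hJi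
    rw [h0]
    exact Pool.Agent.Y708.ZO.tangent_zero ρ
  · obtain ⟨g, t, ht, hg⟩ := h.eq
    have hδ0 : δ ≠ 0 := by
      intro h0
      have h1 := hspan ⊤ (by simp)
      have h2 : {x | ∃ σ ∈ (⊤ : Subgroup G), x = ρ σ *ᵥ δ} ⊆ ({0} : Set (Fin N → ℚ_[ℓ])) := by
        rintro x ⟨σ, -, rfl⟩
        rw [h0, mulVec_zero]
        rfl
      have h3 : (⊤ : Submodule ℚ_[ℓ] (Fin N → ℚ_[ℓ])) ≤ ⊥ := by
        rw [← h1, ← Submodule.span_singleton_eq_bot.2 (rfl : (0 : Fin N → ℚ_[ℓ]) = 0)]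
        exact Submodule.span_mono h2
      have h4 : (Pi.single ⟨0, by omega⟩ 1 : Fin N → ℚ_[ℓ]) ∈
          (⊥ : Submodule ℚ_[ℓ] (Fin N → ℚ_[ℓ])) := h3 trivial
      rw [Submodule.mem_bot] at h4
      have h5 := congrFun h4 ⟨0, by omega⟩
      rw [Pi.single_eq_same] at h5
      exact one_ne_zero h5
    obtain ⟨c, hc⟩ := hI g
    unfold Sim at hc
    rw [hg] at hc
    have hk := refl_of_sim hJ hd hN hδ0 hc
    have ht2 : t * bt J δ δ = -2 := by
      have h1 := (mul_eq_zero.1 hk).resolve_left ht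
      linear_combination h1
    have hδδ : bt J δ δ ≠ 0 := by
      intro h0
      rw [h0, mul_zero] at ht2
      exact two_ne_zero (α := ℚ_[ℓ]) (by linear_combination ht2)
    have hlie : ∀ X ∈ tan ρ, ∀ Y ∈ tan ρ, X * Y - Y * X ∈ tan ρ := fun X hX Y hY =>
      tangent_lie ρ hX hY
    have hmul : ∀ X ∈ tan ρ, ∃ c : ℚ_[ℓ], Xᵀ * J + J * X = c • J := fun X hX =>
      Pool.Agent.Y710.ZS.t1 ℓ N G ρ J hd hI X hX
    have hinv : ρ g⁻¹ = ρ g := by
      have h1 : ρ g * ρ g = 1 := by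
        rw [hg, add_mul, one_mul, mul_add, mul_one, smul_mul_assoc, mul_smul_comm, E_E]
        have h2 : t • t • bt J δ δ • E J δ δ = (-2 * t) • E J δ δ := by
          rw [smul_smul, smul_smul]
          congr 1
          linear_combination t * ht2
        rw [h2]
        module
      have h2 : ρ g⁻¹ * ρ g = 1 := by rw [← map_mul, inv_mul_cancel, map_one]
      calc ρ g⁻¹ = ρ g⁻¹ * (ρ g * ρ g) := by rw [h1, mul_one]
        _ = ρ g := by rw [← mul_assoc, h2, one_mul]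
    have hδX : ∀ X ∈ tan ρ, La J (X *ᵥ δ) δ ∈ tan ρ := by
      intro X hX
      obtain ⟨c, hc⟩ := hmul X hX
      have h1 : ρ g * X * ρ g⁻¹ ∈ tan ρ := tangent_conj ρ g hX
      rw [hinv, hg, conj_refl hJ hc ht2] at h1
      have h2 := (tan ρ).sub_mem h1 hX
      rw [add_sub_cancel_left] at h2
      have h3 := (tan ρ).smul_mem t⁻¹ h2
      rwa [smul_smul, inv_mul_cancel₀ ht, one_smul] at h3
    obtain ⟨U, hU, hUW⟩ := Pool.Agent.Y497.ZO.exp ℓ N G ρ hρ (W J (tan ρ) δ) (W J (tan ρ) δ) le_rfl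
      (fun X hX w hw => W_stable hJ (tan ρ) hlie hδδ hmul hδX hX hw)
    have hWtop : W J (tan ρ) δ = ⊤ := by
      rw [eq_top_iff, ← hspan U hU, Submodule.span_le]
      rintro x ⟨σ, hσ, rfl⟩
      have h1 := hUW σ hσ δ (self_mem_W (tan ρ) δ)
      have h2 := (W J (tan ρ) δ).add_mem h1 (self_mem_W (tan ρ) δ)
      rwa [sub_add_cancel] at h2
    exact full_of_top hJ (tan ρ) hlie hd hδδ hWtop hX

end Pool.Agent.L7h78.VC
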